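import Pool.Agent.L5helper96.VS.MV

/-! A prescribed difference: the whole subcritical range. -/

set_option autoImplicit false

namespace Pool.Agent.L5helper96.VS

open Finset Pool.Agent.helper132_sph Pool.Agent.helper132_poly Pool.Agent.helper132_quad Pool.Agent.helper132_dc

/-- power sums of differences determine power sums of lower degree. -/
theorem psum_of_diff {v k : ℕ} (h : ℤ) (hh : h ≠ 0) (x y : Fin v → ℤ)
    (H : ∀ j : ℕ, 1 ≤ j → j ≤ k → ∑ i, ((x i + h) ^ j - x i ^ j) = ∑ i, ((y i + h) ^ j - y i ^ j)) :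
    ∀ l : ℕ, l < k → ∑ i, x i ^ l = ∑ i, y i ^ l := by
  intro l
  induction l using Nat.strong_induction_on with
  | _ l ih =>
    intro hl
    have h1 := H (l + 1) (by omega) (by omega)
    have e1 : ∀ z : Fin v → ℤ, ∑ i, ((z i + h) ^ (l + 1) - z i ^ (l + 1)) =
        ∑ a ∈ range (l + 1), (∑ i, z i ^ a) * (h ^ (l + 1 - a) * ((l + 1).choose a : ℤ)) := by
      intro z
      have e2 : ∀ i, (z i + h) ^ (l + 1) - z i ^ (l + 1) =
          ∑ a ∈ range (l + 1), z i ^ a * (h ^ (l + 1 - a) * ((l + 1).choose a : ℤ)) := by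
        intro i
        rw [add_pow, Finset.sum_range_succ]
        simp only [Nat.sub_self, pow_zero, Nat.choose_self, Nat.cast_one, mul_one, mul_assoc]
        ring
      rw [Finset.sum_congr rfl fun i _ => e2 i, Finset.sum_comm]
      refine Finset.sum_congr rfl fun a _ => ?_
      rw [Finset.sum_mul]
    rw [e1, e1, Finset.sum_range_succ, Finset.sum_range_succ] at h1
    have h2 : ∑ a ∈ range l, (∑ i, x i ^ a) * (h ^ (l + 1 - a) * ((l + 1).choose a : ℤ)) =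
        ∑ a ∈ range l, (∑ i, y i ^ a) * (h ^ (l + 1 - a) * ((l + 1).choose a : ℤ)) := by
      refine Finset.sum_congr rfl fun a ha => ?_
      rw [Finset.mem_range] at ha
      rw [ih a ha (by omega)]
    rw [h2] at h1
    have h3 := add_left_cancel h1
    have h4 : (h ^ (l + 1 - l) * ((l + 1).choose l : ℤ)) ≠ 0 := by
      refine mul_ne_zero (pow_ne_zero _ hh) ?_
      have : 0 < (l + 1).choose l := Nat.choose_pos (by omega)
      exact_mod_cast this.ne'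
    exact mul_right_cancel₀ h4 h3

/-- the number of solutions of the system of degree `k` inside a set, in at most the critical number of variables. -/
theorem count_sub (k : ℕ) (hk : 1 ≤ k) (η : ℝ) (hη : 0 < η) : ∃ C : ℝ, 1 ≤ C ∧ ∀ (X : ℕ), 1 ≤ X →
    ∀ S : Finset ℤ, S ⊆ Ico (0 : ℤ) X →
      (((((Fintype.piFinset fun _ : Fin (sk k) => S) ×ˢ (Fintype.piFinset fun _ : Fin (sk k) => S)).filter
        (fun w => psm k w.1 = psm k w.2)).card : ℕ) : ℝ) ≤ C * (X : ℝ) ^ η * (S.card : ℝ) ^ (sk k) := by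
  classical
  obtain ⟨C, hC1, hC⟩ := dec_sub k hk η hη
  refine ⟨C, hC1, fun X hX S hS => ?_⟩
  obtain ⟨N, hN⟩ : ∃ N, N = sk k * X ^ k + 1 := ⟨_, rfl⟩
  have hNN : sk k * X ^ k < N := by omega
  have hNpos : (0 : ℝ) < (N : ℝ) ^ k := by
    have : (0 : ℝ) < N := by exact_mod_cast (by omega : 0 < N)
    positivity
  have h1 := hC X hX S hS N hNN
  have h := moment_eq N (by omega) (Fintype.piFinset fun _ : Fin (sk k) => S) (psm k) (by
    intro x hx y hy j
    have hb : ∀ u ∈ (Fintype.piFinset fun _ : Fin (sk k) => S), ∀ i, 0 ≤ u i ∧ u i < X := fun u hu i =>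
      Finset.mem_Ico.1 (hS (Fintype.mem_piFinset.1 hu i))
    have h1 := psm_bound k (sk k) X hX x (hb x hx) j
    have h2 := psm_bound k (sk k) X hX y (hb y hy) j
    have h3 : ((sk k * X ^ k : ℕ) : ℤ) < N := by exact_mod_cast hNN
    push_cast at h3
    rw [abs_lt]
    constructor <;> linarith [h1.1, h1.2, h2.1, h2.2])
  have h2 : ∀ a, ‖Sg N S (mom k) a‖ ^ (2 * sk k) = ‖Sg N (Fintype.piFinset fun _ : Fin (sk k) => S) (psm k) a‖ ^ 2 := by
    intro a
    have := Sg_pow N S (mom k) a (sk k)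
    have e2 : (fun u : Fin (sk k) → ℤ => ∑ i, mom k (u i)) = psm k := by
      funext u; rfl
    rw [e2] at this
    rw [← this, norm_pow, ← pow_mul, mul_comm]
  rw [Finset.sum_congr rfl fun a _ => h2 a, h, mul_comm] at h1
  exact le_of_mul_le_mul_right h1 hNpos

/-- **a prescribed difference, in integers.** -/
theorem diffZ (k n : ℕ) (hk : 3 ≤ k) (hn : n + 1 ≤ sk k) (ε : ℝ) (hε : 0 < ε) :
    ∃ C : ℝ, 1 ≤ C ∧ ∀ X : ℕ, 1 ≤ X → ∀ S : Finset ℤ, S ⊆ Ico (0 : ℤ) X → ∀ h : ℤ, h ≠ 0 →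
      ((((S.filter (fun y => y + h ∈ S)) ×ˢ ((Fintype.piFinset fun _ : Fin n => S) ×ˢ
        (Fintype.piFinset fun _ : Fin n => S))).filter
        (fun w => (mom k (w.1 + h) - mom k w.1) + psm k w.2.1 = psm k w.2.2)).card : ℝ) ≤
        C * (X : ℝ) ^ ε * (S.card : ℝ) ^ n * Real.sqrt ((S.filter (fun y => y + h ∈ S)).card : ℝ) := by
  classical
  obtain ⟨C, hC1, hC⟩ := dec_sub k (by omega) (ε / 2) (by linarith)
  obtain ⟨C', hC1', hC'⟩ := count_sub (k - 1) (by omega) (ε / 2) (by linarith)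
  have hu := sk_pos k (by omega)
  obtain ⟨u, hudef⟩ : ∃ u, u = sk k := ⟨_, rfl⟩
  obtain ⟨v, hvdef⟩ : ∃ v, v = sk (k - 1) := ⟨_, rfl⟩
  have hv := sk_pos (k - 1) (by omega)
  have huv : u ≤ 2 * v := by
    have h1 := two_sk k
    have h2 := two_sk (k - 1)
    obtain ⟨k', rfl⟩ : ∃ k', k = k' + 1 := ⟨k - 1, by omega⟩
    rw [Nat.add_sub_cancel] at h2 hvdef
    rw [hudef, hvdef]
    nlinarith
  rw [← hudef] at hn hC hu
  rw [← hvdef] at hC' hv
  have hvn : 2 * v * n + u ≤ 2 * v * u := by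
    obtain ⟨d, rfl⟩ : ∃ d, u = n + 1 + d := ⟨u - (n + 1), by omega⟩
    nlinarith
  refine ⟨C' * C, ?_, ?_⟩
  · nlinarith
  intro X hX S hS h hh
  have hXR : (1 : ℝ) ≤ X := by exact_mod_cast hX
  obtain ⟨T, hT⟩ : ∃ T, T = S.filter (fun y => y + h ∈ S) := ⟨_, rfl⟩
  rw [← hT]
  rcases T.eq_empty_or_nonempty with hT0 | ⟨t0, ht0⟩
  · rw [hT0, Finset.empty_product, Finset.filter_empty, Finset.card_empty, Nat.cast_zero]
    positivity
  have hTpos : (0 : ℝ) < T.card := by exact_mod_cast Finset.card_pos.2 ⟨t0, ht0⟩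
  have hTS : T ⊆ S := by rw [hT]; exact Finset.filter_subset _ _
  have hTh : ∀ y ∈ T, y + h ∈ S := fun y hy => by rw [hT] at hy; exact (Finset.mem_filter.1 hy).2
  have hSpos : (0 : ℝ) < S.card := by exact_mod_cast Finset.card_pos.2 ⟨t0, hTS ht0⟩
  obtain ⟨N, hN⟩ : ∃ N, N = (2 * v + 1 + 2 * n + u) * X ^ k + 1 := ⟨_, rfl⟩
  have hXk : 0 < X ^ k := by positivity
  have hN1 : 2 * v * X ^ k < N := by
    rw [hN]; exact Nat.lt_succ_of_le (Nat.mul_le_mul_right _ (by omega))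
  have hN2 : (1 + 2 * n) * X ^ k < N := by
    rw [hN]; exact Nat.lt_succ_of_le (Nat.mul_le_mul_right _ (by omega))
  have hN3 : u * X ^ k < N := by
    rw [hN]; exact Nat.lt_succ_of_le (Nat.mul_le_mul_right _ (by omega))
  have hNpos : (0 : ℝ) < (N : ℝ) ^ k := by
    have : (0 : ℝ) < N := by exact_mod_cast (by omega : 0 < N)
    positivity
  obtain ⟨Φ, hΦ⟩ : ∃ Φ : ℤ → Fin k → ℤ, Φ = fun y => mom k (y + h) - mom k y := ⟨_, rfl⟩
  have hbd : ∀ y : ℤ, 0 ≤ y → y < X → ∀ j : Fin k, 0 ≤ mom k y j ∧ mom k y j ≤ (X : ℤ) ^ k := by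
    intro y h1 h2 j
    have hXz : (1 : ℤ) ≤ X := by exact_mod_cast hX
    unfold mom
    exact ⟨pow_nonneg h1 _, (pow_le_pow_left₀ h1 h2.le _).trans (pow_le_pow_right₀ hXz (by omega))⟩
  have hb : ∀ y ∈ T, ∀ j, |Φ y j| ≤ (X : ℤ) ^ k := by
    intro y hy j
    have m1 := Finset.mem_Ico.1 (hS (hTS hy))
    have m2 := Finset.mem_Ico.1 (hS (hTh y hy))
    have a1 := hbd y m1.1 m1.2 j
    have a2 := hbd (y + h) m2.1 m2.2 j
    rw [hΦ]
    simp only [Pi.sub_apply]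
    rw [abs_le]
    constructor <;> linarith [a1.1, a1.2, a2.1, a2.2]
  have h1 := block_count (n := n) N T Φ S X 1 hX hS (by
    intro y hy j
    have := hb y hy j
    push_cast
    linarith) hN2
  -- the moment of the block
  have hb2 : ∀ u ∈ (Fintype.piFinset fun _ : Fin v => T), ∀ j, |(∑ i, Φ (u i)) j| ≤ v * (X : ℤ) ^ k := by
    intro u hu j
    rw [Finset.sum_apply]
    refine (Finset.abs_sum_le_sum_abs _ _).trans ?_
    calc ∑ i, |Φ (u i) j| ≤ ∑ _i : Fin v, ((X : ℤ) ^ k) :=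
          Finset.sum_le_sum fun i _ => hb _ (Fintype.mem_piFinset.1 hu i) j
      _ = v * (X : ℤ) ^ k := by simp
  have h2 : ∑ a ∈ gr k N, ‖Sg N T Φ a‖ ^ (2 * v) ≤ (C' * (X : ℝ) ^ (ε / 2) * (T.card : ℝ) ^ v) * (N : ℝ) ^ k := by
    have g1 := moment_eq N (by omega) (Fintype.piFinset fun _ : Fin v => T) (fun u => ∑ i, Φ (u i)) (by
      intro x hx y hy j
      have a1 := hb2 x hx j
      have a2 := hb2 y hy j
      have a3 : ((2 * v * X ^ k : ℕ) : ℤ) < N := by exact_mod_cast hN1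
      push_cast at a3
      rw [abs_le] at a1 a2
      rw [abs_lt]
      constructor <;> linarith [a1.1, a1.2, a2.1, a2.2, a3])
    have g2 : ∀ a, ‖Sg N T Φ a‖ ^ (2 * v) = ‖Sg N (Fintype.piFinset fun _ : Fin v => T) (fun u => ∑ i, Φ (u i)) a‖ ^ 2 := by
      intro a
      rw [← Sg_pow, norm_pow, ← pow_mul, mul_comm]
    rw [Finset.sum_congr rfl fun a _ => g2 a, g1, mul_comm]
    refine mul_le_mul_of_nonneg_right ?_ hNpos.le
    refine le_trans ?_ (hC' X hX T (hTS.trans hS))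
    refine Nat.cast_le.2 (Finset.card_le_card ?_)
    intro w hw
    rw [Finset.mem_filter] at hw ⊢
    refine ⟨hw.1, ?_⟩
    have g3 := psum_of_diff (k := k) h hh w.1 w.2 (by
      intro j hj1 hjk
      have g4 := congrFun hw.2 ⟨j - 1, by omega⟩
      rw [Finset.sum_apply, Finset.sum_apply, hΦ] at g4
      simp only [Pi.sub_apply, mom] at g4
      have e : j - 1 + 1 = j := by omega
      rw [e] at g4
      exact g4)
    funext j
    rw [psm_apply, psm_apply]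
    exact g3 _ (by omega)
  have h3 := hC X hX S hS N hN3
  have hcard : ((gr k N).card : ℝ) = (N : ℝ) ^ k := by rw [card_gr]; push_cast; rfl
  have h4 := hold (gr k N) (fun a => ‖Sg N T Φ a‖) (fun a => ‖Sg N S (mom k) a‖)
    (fun a => norm_nonneg _) (fun a => norm_nonneg _) v n u hv hu hvn
    (C' * (X : ℝ) ^ (ε / 2) * (T.card : ℝ) ^ v) (C * (X : ℝ) ^ (ε / 2) * (S.card : ℝ) ^ u)
    (by positivity) (by positivity) (by rw [hcard]; exact h2) (by rw [hcard]; exact h3)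
  rw [hcard] at h4
  have h5 := h1.trans h4
  have h6 : ((((T ×ˢ ((Fintype.piFinset fun _ : Fin n => S) ×ˢ (Fintype.piFinset fun _ : Fin n => S))).filter
      (fun w => Φ w.1 + psm k w.2.1 = psm k w.2.2)).card : ℕ) : ℝ) ≤
      (C' * (X : ℝ) ^ (ε / 2) * (T.card : ℝ) ^ v) ^ ((1 : ℝ) / (2 * v)) *
        (C * (X : ℝ) ^ (ε / 2) * (S.card : ℝ) ^ u) ^ ((n : ℝ) / u) := by
    rw [mul_comm] at h5
    exact le_of_mul_le_mul_right h5 hNpos
  have h7 : ((((T ×ˢ ((Fintype.piFinset fun _ : Fin n => S) ×ˢ (Fintype.piFinset fun _ : Fin n => S))).filter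
      (fun w => (mom k (w.1 + h) - mom k w.1) + psm k w.2.1 = psm k w.2.2)).card : ℕ) : ℝ) ≤
      (C' * (X : ℝ) ^ (ε / 2) * (T.card : ℝ) ^ v) ^ ((1 : ℝ) / (2 * v)) *
        (C * (X : ℝ) ^ (ε / 2) * (S.card : ℝ) ^ u) ^ ((n : ℝ) / u) := by
    rw [hΦ] at h6
    exact h6
  refine h7.trans ?_
  have hv0 : (0 : ℝ) < v := by exact_mod_cast hv
  have hu0 : (0 : ℝ) < u := by exact_mod_cast hu
  have hXε : (1 : ℝ) ≤ (X : ℝ) ^ (ε / 2) := Real.one_le_rpow hXR (by linarith)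
  have hnu : (n : ℝ) / u ≤ 1 := by
    rw [div_le_one hu0]
    exact_mod_cast (by omega : n ≤ u)
  have b1 : (C' * (X : ℝ) ^ (ε / 2) * (T.card : ℝ) ^ v) ^ ((1 : ℝ) / (2 * v)) ≤
      C' * (X : ℝ) ^ (ε / 2) * Real.sqrt (T.card : ℝ) := by
    rw [Real.mul_rpow (by positivity) (by positivity)]
    have hCX : (1 : ℝ) ≤ C' * (X : ℝ) ^ (ε / 2) := by nlinarith
    have c1 : (C' * (X : ℝ) ^ (ε / 2)) ^ ((1 : ℝ) / (2 * v)) ≤ C' * (X : ℝ) ^ (ε / 2) := by
      calc (C' * (X : ℝ) ^ (ε / 2)) ^ ((1 : ℝ) / (2 * v)) ≤ (C' * (X : ℝ) ^ (ε / 2)) ^ (1 : ℝ) := by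
            refine Real.rpow_le_rpow_of_exponent_le hCX ?_
            rw [div_le_one (by positivity)]
            have : (1 : ℝ) ≤ v := by exact_mod_cast hv
            linarith
        _ = _ := Real.rpow_one _
    have c2 : ((T.card : ℝ) ^ v) ^ ((1 : ℝ) / (2 * v)) = Real.sqrt (T.card : ℝ) := by
      rw [← Real.rpow_natCast, ← Real.rpow_mul hTpos.le, Real.sqrt_eq_rpow]
      congr 1
      field_simp
    rw [c2]
    exact mul_le_mul_of_nonneg_right c1 (Real.sqrt_nonneg _)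
  have b2 : (C * (X : ℝ) ^ (ε / 2) * (S.card : ℝ) ^ u) ^ ((n : ℝ) / u) ≤ C * (X : ℝ) ^ (ε / 2) * (S.card : ℝ) ^ n := by
    rw [Real.mul_rpow (by positivity) (by positivity)]
    have hCX : (1 : ℝ) ≤ C * (X : ℝ) ^ (ε / 2) := by nlinarith
    have c1 : (C * (X : ℝ) ^ (ε / 2)) ^ ((n : ℝ) / u) ≤ C * (X : ℝ) ^ (ε / 2) := by
      calc (C * (X : ℝ) ^ (ε / 2)) ^ ((n : ℝ) / u) ≤ (C * (X : ℝ) ^ (ε / 2)) ^ (1 : ℝ) :=
            Real.rpow_le_rpow_of_exponent_le hCX hnu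
        _ = _ := Real.rpow_one _
    have c2 : ((S.card : ℝ) ^ u) ^ ((n : ℝ) / u) = (S.card : ℝ) ^ n := by
      rw [← Real.rpow_natCast, ← Real.rpow_natCast, ← Real.rpow_mul hSpos.le]
      congr 1
      field_simp
    rw [c2]
    exact mul_le_mul_of_nonneg_right c1 (by positivity)
  have hX2 : (X : ℝ) ^ (ε / 2) * (X : ℝ) ^ (ε / 2) = (X : ℝ) ^ ε := by
    rw [← Real.rpow_add (by linarith)]
    congr 1
    ring
  calc _ ≤ (C' * (X : ℝ) ^ (ε / 2) * Real.sqrt (T.card : ℝ)) * (C * (X : ℝ) ^ (ε / 2) * (S.card : ℝ) ^ n) :=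
        mul_le_mul b1 b2 (by positivity) (by positivity)
    _ = C' * C * ((X : ℝ) ^ (ε / 2) * (X : ℝ) ^ (ε / 2)) * (S.card : ℝ) ^ n * Real.sqrt (T.card : ℝ) := by ring
    _ = _ := by rw [hX2]

end Pool.Agent.L5helper96.VS
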