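import Pool.Agent.helper132_dc.D10

/-! The mean value theorem for subsets. -/

set_option autoImplicit false

namespace Pool.Agent.L5helper96.VS

open Finset Pool.Agent.helper132_sph Pool.Agent.helper132_poly Pool.Agent.helper132_quad Pool.Agent.helper132_dc

/-- mean value of order `2 sk k` of the exponential sum over an arbitrary subset of `[0,X)`. -/
theorem dec_sub (k : ℕ) (hk : 1 ≤ k) (η : ℝ) (hη : 0 < η) : ∃ C : ℝ, 1 ≤ C ∧ ∀ (X : ℕ), 1 ≤ X →
    ∀ S : Finset ℤ, S ⊆ Ico (0 : ℤ) X → ∀ N : ℕ, sk k * X ^ k < N →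
      ∑ a ∈ gr k N, ‖Sg N S (mom k) a‖ ^ (2 * sk k) ≤ C * (X : ℝ) ^ η * (S.card : ℝ) ^ (sk k) * (N : ℝ) ^ k := by
  obtain ⟨p0, hp0⟩ := dec_main k hk η hη
  obtain ⟨p, hpp, hp⟩ := Nat.exists_infinite_primes p0
  obtain ⟨C, hC, hU⟩ := hp0 p hp hpp
  have hpR1 : (1 : ℝ) ≤ p := by exact_mod_cast hp.one_lt.le
  have hpR0 : (0 : ℝ) < p := by linarith
  obtain ⟨s, hs⟩ : ∃ s, s = sk k := ⟨_, rfl⟩
  have hs1 : 1 ≤ s := by rw [hs]; exact sk_pos k hk
  refine ⟨C * (p : ℝ) ^ η, ?_, ?_⟩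
  · have : (1 : ℝ) ≤ (p : ℝ) ^ η := Real.one_le_rpow hpR1 hη.le
    nlinarith
  intro X hX S hS N hNN'
  have hXR : (1 : ℝ) ≤ X := by exact_mod_cast hX
  have hX0 : (0 : ℝ) < X := by linarith
  obtain ⟨B, hB⟩ : ∃ B, B = Nat.clog p X := ⟨_, rfl⟩
  have hXB : X ≤ p ^ B := by rw [hB]; exact Nat.le_pow_clog hp.one_lt X
  have hBX : p ^ B ≤ p * X := by
    rcases Nat.lt_or_ge 1 X with h | h
    · have h1 := Nat.pow_pred_clog_lt_self hp.one_lt h
      rw [← hB] at h1
      have hB1 : 1 ≤ B := by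
        rw [hB]; exact Nat.clog_pos hp.one_lt h
      have h2 : p ^ B = p * p ^ B.pred := by
        rw [← pow_succ']; congr 1; rw [Nat.pred_eq_sub_one]; omega
      rw [h2]
      exact Nat.mul_le_mul_left _ h1.le
    · have : X = 1 := by omega
      rw [hB, this, Nat.clog_one_right, pow_zero, mul_one]
      exact hp.one_lt.le
  have hNN : s * X ^ k < N := by rw [hs]; exact hNN'
  have hN0 : (0 : ℝ) < (N : ℝ) ^ k := by
    have : (0 : ℝ) < N := by exact_mod_cast (by omega : 0 < N)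
    positivity
  have hOS : OS (fun _ : ↥(gr k N) => (1 : ℝ)) (FN k N) S 1 k (sk k) ((p : ℤ) ^ (k * B)) := by
    intro x y hx hy hn
    exact FN_orth k N X (sk k) hX (by rw [← hs]; exact hNN) _ x y (fun i => hS (hx i)) (fun i => hS (hy i)) hn
  have hmain := hU ↥(gr k N) inferInstance B (fun _ => (1 : ℝ)) (FN k N) S (fun _ => zero_le_one) hOS
  rw [← hs] at hmain
  -- left side
  have hL : nm (fun _ : ↥(gr k N) => (1 : ℝ)) s (Sm S (FN k N)) = ∑ a ∈ gr k N, ‖Sg N S (mom k) a‖ ^ (2 * s) := by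
    unfold nm
    rw [← Finset.sum_coe_sort (gr k N) (fun a => ‖Sg N S (mom k) a‖ ^ (2 * s))]
    refine Finset.sum_congr rfl fun ω _ => ?_
    rw [one_mul]
    rfl
  -- right side
  have hR : ∀ c ∈ range (p ^ B), nm (fun _ : ↥(gr k N) => (1 : ℝ)) s (Sm (cls (p ^ B) S c) (FN k N)) =
      if (c : ℤ) ∈ S then (N : ℝ) ^ k else 0 := by
    intro c hc
    rw [Finset.mem_range] at hc
    have hcls : cls (p ^ B) S c = if (c : ℤ) ∈ S then {(c : ℤ)} else ∅ := by
      ext n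
      rw [mem_cls]
      constructor
      · rintro ⟨hnS, hd⟩
        have hnX := Finset.mem_Ico.1 (hS hnS)
        have h1 := Int.eq_zero_of_abs_lt_dvd hd (by
          have h2 : (X : ℤ) ≤ ((p ^ B : ℕ) : ℤ) := by exact_mod_cast hXB
          have h3 : (c : ℤ) < ((p ^ B : ℕ) : ℤ) := by exact_mod_cast hc
          rw [abs_lt]
          constructor <;> omega)
        have h2 : n = c := by omega
        rw [if_pos (by rw [← h2]; exact hnS), h2, Finset.mem_singleton]
      · intro h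
        split_ifs at h with h1
        · rw [Finset.mem_singleton] at h
          subst h
          exact ⟨h1, by simp⟩
        · exact absurd h (Finset.notMem_empty _)
    rw [hcls]
    split_ifs with h
    · unfold nm Sm FN
      have e1 : ∀ ω : ↥(gr k N), (1 : ℝ) * ‖∑ n ∈ ({(c : ℤ)} : Finset ℤ), eg N ω.1 (mom k n)‖ ^ (2 * s) = 1 := by
        intro ω
        rw [Finset.sum_singleton, norm_eg, one_pow, one_mul]
      rw [Finset.sum_congr rfl fun ω _ => e1 ω, Finset.sum_const, Finset.card_univ, Fintype.card_coe, card_gr]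
      simp
    · unfold nm Sm
      simp only [Finset.sum_empty, norm_zero]
      rw [zero_pow (by omega)]
      simp
  have hR2 : ∑ c ∈ range (p ^ B), nm (fun _ : ↥(gr k N) => (1 : ℝ)) s
      (Sm (cls (p ^ B) S c) (FN k N)) ^ ((1 : ℝ) / s) = S.card * ((N : ℝ) ^ k) ^ ((1 : ℝ) / s) := by
    have e1 : ∀ c ∈ range (p ^ B), nm (fun _ : ↥(gr k N) => (1 : ℝ)) s
        (Sm (cls (p ^ B) S c) (FN k N)) ^ ((1 : ℝ) / s) =
        if (c : ℤ) ∈ S then ((N : ℝ) ^ k) ^ ((1 : ℝ) / s) else 0 := by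
      intro c hc
      rw [hR c hc]
      split_ifs
      · rfl
      · have hs0 : (0 : ℝ) < s := by exact_mod_cast hs1
        exact Real.zero_rpow (by positivity)
    rw [Finset.sum_congr rfl e1, ← Finset.sum_filter]
    have e2 : ((range (p ^ B)).filter (fun c : ℕ => (c : ℤ) ∈ S)).card = S.card := by
      refine Finset.card_bij (fun c _ => (c : ℤ)) ?_ ?_ ?_
      · intro c hc
        exact (Finset.mem_filter.1 hc).2
      · intro c _ c' _ h
        exact_mod_cast h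
      · intro n hn
        have hnX := Finset.mem_Ico.1 (hS hn)
        refine ⟨n.toNat, ?_, Int.toNat_of_nonneg hnX.1⟩
        rw [Finset.mem_filter, Finset.mem_range, Int.toNat_of_nonneg hnX.1]
        refine ⟨?_, hn⟩
        have h2 : (X : ℤ) ≤ ((p ^ B : ℕ) : ℤ) := by exact_mod_cast hXB
        omega
    rw [Finset.sum_const, e2, nsmul_eq_mul]
  rw [hL, hR2, mul_pow, one_div, Real.rpow_inv_natCast_pow hN0.le (by omega)] at hmain
  have h3 : (p : ℝ) ^ (η * B) ≤ (p : ℝ) ^ η * (X : ℝ) ^ η := by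
    rw [← Real.mul_rpow hpR0.le hX0.le, mul_comm η, Real.rpow_mul hpR0.le, Real.rpow_natCast]
    exact Real.rpow_le_rpow (by positivity) (by exact_mod_cast hBX) hη.le
  rw [← hs]
  calc ∑ a ∈ gr k N, ‖Sg N S (mom k) a‖ ^ (2 * s)
      ≤ C * (p : ℝ) ^ (η * B) * ((S.card : ℝ) ^ s * (N : ℝ) ^ k) := hmain
    _ ≤ C * ((p : ℝ) ^ η * (X : ℝ) ^ η) * ((S.card : ℝ) ^ s * (N : ℝ) ^ k) := by gcongr
    _ = _ := by ring

end Pool.Agent.L5helper96.VS
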