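import Pool.Agent.L5helper96.VS.VT
import Pool.Agent.R470.VM.Asm

/-! Few variables: power sums determine the values; counting. -/

set_option autoImplicit false

namespace Pool.Agent.L5helper96.VS

open Finset

/-- equal power sums in at most `k` variables. -/
theorem exact {P : Type} [Fintype P] (L R : P → ℤ) (hL : ∀ p, 0 ≤ L p) (hR : ∀ p, 0 ≤ R p) (k : ℕ)
    (hk : Fintype.card P ≤ k) (h : ∀ j : Fin k, ∑ p, L p ^ ((j : ℕ) + 1) = ∑ p, R p ^ ((j : ℕ) + 1)) :
    ∃ π : P ≃ P, ∀ p, L p = R (π p) := by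
  classical
  obtain ⟨e⟩ : Nonempty (P ≃ Fin (Fintype.card P)) := ⟨Fintype.equivFin P⟩
  obtain ⟨σ, hσ⟩ := Pool.Agent.R470.VM.newton_support (s := Fintype.card P) (k := k)
    (fun i => (L (e.symm i)).toNat) (fun i => (R (e.symm i)).toNat) (by
      intro j
      have h1 := h j
      have a1 : ∑ p, L p ^ ((j : ℕ) + 1) = ((∑ i, ((L (e.symm i)).toNat) ^ ((j : ℕ) + 1) : ℕ) : ℤ) := by
        push_cast
        rw [← Equiv.sum_comp e.symm (fun p => L p ^ ((j : ℕ) + 1))]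
        refine Finset.sum_congr rfl fun i _ => ?_
        rw [Int.toNat_of_nonneg (hL _)]
      have a2 : ∑ p, R p ^ ((j : ℕ) + 1) = ((∑ i, ((R (e.symm i)).toNat) ^ ((j : ℕ) + 1) : ℕ) : ℤ) := by
        push_cast
        rw [← Equiv.sum_comp e.symm (fun p => R p ^ ((j : ℕ) + 1))]
        refine Finset.sum_congr rfl fun i _ => ?_
        rw [Int.toNat_of_nonneg (hR _)]
      rw [a1, a2] at h1
      exact_mod_cast h1) Finset.univ (fun i hi => absurd (Finset.mem_univ i) hi)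
    (by rw [Finset.card_univ, Fintype.card_fin]; exact hk)
  refine ⟨(e.trans σ.symm).trans e.symm, fun p => ?_⟩
  have h2 := congrFun hσ (σ.symm (e p))
  simp only [Function.comp_apply, Equiv.apply_symm_apply, Equiv.symm_apply_apply] at h2
  rw [Equiv.trans_apply, Equiv.trans_apply]
  have h3 := congrArg (Nat.cast : ℕ → ℤ) h2
  rw [Int.toNat_of_nonneg (hR _), Int.toNat_of_nonneg (hL _)] at h3
  exact h3.symm

section netZ

variable {H J : Type} [Fintype H] [DecidableEq H] [Fintype J] [DecidableEq J]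

/-- `net` for integer values. -/
theorem netZ (E : H → Finset ((J → ℤ) × (J → ℤ))) (π : (H × J) ≃ (H × J)) (hπ : ∀ p, (π p).1 ≠ p.1) :
    (((Fintype.piFinset E).filter (fun z => ∀ p : H × J, (z p.1).1 p.2 = (z (π p).1).2 (π p).2)).card : ℝ) ≤
      ∏ h, Real.sqrt ((E h).card : ℝ) := by
  classical
  obtain ⟨B, hB1, hB2⟩ : ∃ B : Finset ℤ, (∀ h, ∀ e ∈ E h, ∀ j, e.1 j ∈ B) ∧ (∀ h, ∀ e ∈ E h, ∀ j, e.2 j ∈ B) := by
    refine ⟨(Finset.univ.biUnion fun h => (E h).biUnion fun e => Finset.univ.image e.1) ∪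
      (Finset.univ.biUnion fun h => (E h).biUnion fun e => Finset.univ.image e.2), ?_, ?_⟩
    · intro h e he j
      refine Finset.mem_union_left _ (Finset.mem_biUnion.2 ⟨h, Finset.mem_univ h, Finset.mem_biUnion.2 ⟨e, he, ?_⟩⟩)
      exact Finset.mem_image_of_mem _ (Finset.mem_univ j)
    · intro h e he j
      refine Finset.mem_union_right _ (Finset.mem_biUnion.2 ⟨h, Finset.mem_univ h, Finset.mem_biUnion.2 ⟨e, he, ?_⟩⟩)
      exact Finset.mem_image_of_mem _ (Finset.mem_univ j)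
  obtain ⟨c, hc⟩ : ∃ c : ((J → ↥B) × (J → ↥B)) → ((J → ℤ) × (J → ℤ)), ∀ e, c e = ((fun j => (e.1 j : ℤ)), (fun j => (e.2 j : ℤ))) :=
    ⟨_, fun _ => rfl⟩
  obtain ⟨E', hE'⟩ : ∃ E' : H → Finset ((J → ↥B) × (J → ↥B)), ∀ h e, e ∈ E' h ↔ c e ∈ E h :=
    ⟨fun h => Finset.univ.filter (fun e => c e ∈ E h), fun h e => by simp⟩
  have hcard : ∀ h, (E' h).card ≤ (E h).card := by
    intro h
    refine Finset.card_le_card_of_injOn c (fun e he => (hE' h e).1 he) ?_
    intro e _ e' _ hee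
    rw [hc, hc] at hee
    simp only [Prod.mk.injEq] at hee
    refine Prod.ext (funext fun j => Subtype.ext (congrFun hee.1 j)) (funext fun j => Subtype.ext (congrFun hee.2 j))
  refine le_trans ?_ ((net E' π hπ).trans ?_)
  · refine Nat.cast_le.2 (Finset.card_le_card_of_surjOn (fun z h => c (z h)) ?_)
    intro z hz
    rw [Finset.mem_coe, Finset.mem_filter, Fintype.mem_piFinset] at hz
    refine ⟨fun h => ((fun j => ⟨(z h).1 j, hB1 h _ (hz.1 h) j⟩), (fun j => ⟨(z h).2 j, hB2 h _ (hz.1 h) j⟩)), ?_, ?_⟩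
    · rw [Finset.mem_coe, Finset.mem_filter, Fintype.mem_piFinset]
      refine ⟨fun h => (hE' h _).2 ?_, fun p => Subtype.ext (hz.2 p)⟩
      rw [hc]
      exact hz.1 h
    · funext h
      show c _ = z h
      rw [hc]
  · refine Finset.prod_le_prod (fun h _ => Real.sqrt_nonneg _) fun h _ => Real.sqrt_le_sqrt ?_
    exact_mod_cast hcard h

end netZ

/-- pairs of `q`-tuples of members of `E` with equal signed power sums. -/
theorem energy {m q k : ℕ} (hk : 2 * q * m ≤ k) (E : Finset ((Fin m → ℤ) × (Fin m → ℤ)))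
    (h0 : ∀ e ∈ E, (∀ i, 0 ≤ e.1 i) ∧ ∀ i, 0 ≤ e.2 i) (hne : ∀ e ∈ E, ∀ i j, e.1 i ≠ e.2 j) :
    ((((Fintype.piFinset fun _ : Fin q => E) ×ˢ (Fintype.piFinset fun _ : Fin q => E)).filter
      (fun w => ∀ j : Fin k, ∑ i, (∑ l, (w.1 i).1 l ^ ((j : ℕ) + 1) - ∑ l, (w.1 i).2 l ^ ((j : ℕ) + 1)) =
        ∑ i, (∑ l, (w.2 i).1 l ^ ((j : ℕ) + 1) - ∑ l, (w.2 i).2 l ^ ((j : ℕ) + 1)))).card : ℝ) ≤
      (2 * q * m).factorial * (E.card : ℝ) ^ q := by
  classical
  obtain ⟨EH, hEH⟩ : ∃ EH : Fin q ⊕ Fin q → Finset ((Fin m → ℤ) × (Fin m → ℤ)),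
      (∀ i, EH (Sum.inl i) = E) ∧ ∀ i, EH (Sum.inr i) = E.image Prod.swap :=
    ⟨Sum.elim (fun _ => E) (fun _ => E.image Prod.swap), fun _ => rfl, fun _ => rfl⟩
  obtain ⟨Z, hZ⟩ : ∃ Z : ((Fin q ⊕ Fin q) × Fin m ≃ (Fin q ⊕ Fin q) × Fin m) →
      Finset (Fin q ⊕ Fin q → (Fin m → ℤ) × (Fin m → ℤ)), ∀ π, Z π = (Fintype.piFinset EH).filter
        (fun z => ∀ p : (Fin q ⊕ Fin q) × Fin m, (z p.1).1 p.2 = (z (π p).1).2 (π p).2) := ⟨_, fun _ => rfl⟩
  have hswap : (E.image Prod.swap).card = E.card := Finset.card_image_of_injective _ Prod.swap_injective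
  have hZc : ∀ π, ((Z π).card : ℝ) ≤ (E.card : ℝ) ^ q := by
    intro π
    by_cases hπ : ∀ p, (π p).1 ≠ p.1
    · rw [hZ]
      refine (netZ EH π hπ).trans (le_of_eq ?_)
      rw [Fintype.prod_sum_type]
      simp only [hEH.1, hEH.2, hswap, Finset.prod_const, Finset.card_univ, Fintype.card_fin]
      rw [← mul_pow, Real.mul_self_sqrt (Nat.cast_nonneg _)]
    · push Not at hπ
      obtain ⟨p, hp⟩ := hπ
      have : Z π = ∅ := by
        rw [Finset.eq_empty_iff_forall_notMem]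
        intro z hz
        rw [hZ, Finset.mem_filter, Fintype.mem_piFinset] at hz
        have h1 := hz.2 p
        rw [hp] at h1
        have h2 := hz.1 p.1
        rcases hq : p.1 with i | i
        · rw [hq, hEH.1] at h2
          rw [hq] at h1
          exact hne _ h2 _ _ h1
        · rw [hq, hEH.2, Finset.mem_image] at h2
          obtain ⟨e, he, h3⟩ := h2
          rw [hq, ← h3] at h1
          exact hne _ he _ _ h1.symm
      rw [this, Finset.card_empty, Nat.cast_zero]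
      positivity
  -- the map
  obtain ⟨φ, hφ⟩ : ∃ φ : ((Fin q → (Fin m → ℤ) × (Fin m → ℤ)) × (Fin q → (Fin m → ℤ) × (Fin m → ℤ))) →
      (Fin q ⊕ Fin q → (Fin m → ℤ) × (Fin m → ℤ)), ∀ w, φ w = Sum.elim w.1 (fun i => (w.2 i).swap) :=
    ⟨_, fun _ => rfl⟩
  have hinj : Function.Injective φ := by
    intro w w' h
    rw [hφ, hφ] at h
    refine Prod.ext (funext fun i => ?_) (funext fun i => ?_)
    · have := congrFun h (Sum.inl i)
      exact this
    · have := congrFun h (Sum.inr i)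
      exact Prod.swap_injective this
  have hcov : ((((Fintype.piFinset fun _ : Fin q => E) ×ˢ (Fintype.piFinset fun _ : Fin q => E)).filter
      (fun w => ∀ j : Fin k, ∑ i, (∑ l, (w.1 i).1 l ^ ((j : ℕ) + 1) - ∑ l, (w.1 i).2 l ^ ((j : ℕ) + 1)) =
        ∑ i, (∑ l, (w.2 i).1 l ^ ((j : ℕ) + 1) - ∑ l, (w.2 i).2 l ^ ((j : ℕ) + 1))))).card ≤
      ∑ π : ((Fin q ⊕ Fin q) × Fin m ≃ (Fin q ⊕ Fin q) × Fin m), (Z π).card := by
    refine le_trans ?_ Finset.card_biUnion_le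
    refine Finset.card_le_card_of_injOn φ ?_ (hinj.injOn)
    intro w hw
    rw [Finset.mem_coe, Finset.mem_filter, Finset.mem_product, Fintype.mem_piFinset, Fintype.mem_piFinset] at hw
    obtain ⟨⟨hw1, hw2⟩, hw3⟩ := hw
    obtain ⟨z, hz⟩ : ∃ z, z = φ w := ⟨_, rfl⟩
    have hz1 : ∀ i, z (Sum.inl i) = w.1 i := fun i => by rw [hz, hφ]; rfl
    have hz2 : ∀ i, z (Sum.inr i) = (w.2 i).swap := fun i => by rw [hz, hφ]; rfl
    obtain ⟨π, hπ⟩ := exact (P := (Fin q ⊕ Fin q) × Fin m) (fun p => (z p.1).1 p.2) (fun p => (z p.1).2 p.2) (by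
        rintro ⟨h, l⟩
        rcases h with i | i
        · simp only [hz1]; exact (h0 _ (hw1 i)).1 l
        · simp only [hz2]; exact (h0 _ (hw2 i)).2 l) (by
        rintro ⟨h, l⟩
        rcases h with i | i
        · simp only [hz1]; exact (h0 _ (hw1 i)).2 l
        · simp only [hz2]; exact (h0 _ (hw2 i)).1 l) k (by
        rw [Fintype.card_prod, Fintype.card_sum, Fintype.card_fin, Fintype.card_fin]
        calc (q + q) * m = 2 * q * m := by ring
          _ ≤ k := hk) (by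
        intro j
        rw [Fintype.sum_prod_type, Fintype.sum_prod_type, Fintype.sum_sum_type, Fintype.sum_sum_type]
        simp only [hz1, hz2, Prod.fst_swap, Prod.snd_swap]
        have h1 := hw3 j
        rw [Finset.sum_sub_distrib, Finset.sum_sub_distrib] at h1
        linarith)
    rw [Finset.mem_coe, Finset.mem_biUnion]
    refine ⟨π, Finset.mem_univ π, ?_⟩
    rw [hZ, Finset.mem_filter, Fintype.mem_piFinset, ← hz]
    refine ⟨fun h => ?_, hπ⟩
    rcases h with i | i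
    · rw [hz1, hEH.1]; exact hw1 i
    · rw [hz2, hEH.2]; exact Finset.mem_image_of_mem _ (hw2 i)
  calc ((((Fintype.piFinset fun _ : Fin q => E) ×ˢ (Fintype.piFinset fun _ : Fin q => E)).filter
      (fun w => ∀ j : Fin k, ∑ i, (∑ l, (w.1 i).1 l ^ ((j : ℕ) + 1) - ∑ l, (w.1 i).2 l ^ ((j : ℕ) + 1)) =
        ∑ i, (∑ l, (w.2 i).1 l ^ ((j : ℕ) + 1) - ∑ l, (w.2 i).2 l ^ ((j : ℕ) + 1)))).card : ℝ)
      ≤ ((∑ π : ((Fin q ⊕ Fin q) × Fin m ≃ (Fin q ⊕ Fin q) × Fin m), (Z π).card : ℕ) : ℝ) := by exact_mod_cast hcov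
    _ = ∑ π : ((Fin q ⊕ Fin q) × Fin m ≃ (Fin q ⊕ Fin q) × Fin m), ((Z π).card : ℝ) := by push_cast; rfl
    _ ≤ ∑ _π : ((Fin q ⊕ Fin q) × Fin m ≃ (Fin q ⊕ Fin q) × Fin m), (E.card : ℝ) ^ q :=
        Finset.sum_le_sum fun π _ => hZc π
    _ = (2 * q * m).factorial * (E.card : ℝ) ^ q := by
        rw [Finset.sum_const, Finset.card_univ, Fintype.card_perm, Fintype.card_prod, Fintype.card_sum,
          Fintype.card_fin, Fintype.card_fin, nsmul_eq_mul]
        have : (q + q) * m = 2 * q * m := by ring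
        rw [this]

end Pool.Agent.L5helper96.VS
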