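import Pool.Agent.L5helper96.VS.DS
import Pool.Agent.L5helper96.VS.EX

/-! Counting with one block restricted. -/

set_option autoImplicit false

namespace Pool.Agent.L5helper96.VS

open Finset Pool.Agent.helper132_sph Pool.Agent.helper132_poly Pool.Agent.helper132_quad Pool.Agent.helper132_dc

/-- Hoelder's inequality in a convenient form. -/
theorem hold {ι : Type} (G : Finset ι) (F g : ι → ℝ) (hF0 : ∀ a, 0 ≤ F a) (hg0 : ∀ a, 0 ≤ g a) (v n u : ℕ)
    (hv : 1 ≤ v) (hu : 1 ≤ u) (hvn : 2 * v * n + u ≤ 2 * v * u) (A B : ℝ) (hA : 0 < A) (hB : 0 < B)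
    (hFA : ∑ a ∈ G, F a ^ (2 * v) ≤ A * G.card) (hgB : ∑ a ∈ G, g a ^ (2 * u) ≤ B * G.card) :
    ∑ a ∈ G, F a * g a ^ (2 * n) ≤ A ^ ((1 : ℝ) / (2 * v)) * B ^ ((n : ℝ) / u) * G.card := by
  have hv0 : (0 : ℝ) < v := by exact_mod_cast hv
  have hu0 : (0 : ℝ) < u := by exact_mod_cast hu
  obtain ⟨θ, hθ⟩ : ∃ θ : ℝ, θ = 1 - 1 / (2 * v) - n / u := ⟨_, rfl⟩
  have hθ0 : 0 ≤ θ := by
    rw [hθ]
    have h1 : (2 * v * n + u : ℝ) ≤ 2 * v * u := by exact_mod_cast hvn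
    have h2 : 1 - 1 / (2 * (v : ℝ)) - n / u = (2 * v * u - (2 * v * n + u)) / (2 * v * u) := by
      field_simp
      ring
    rw [h2]
    exact div_nonneg (by linarith) (by positivity)
  obtain ⟨K, hK⟩ : ∃ K : ℝ, K = A ^ ((1 : ℝ) / (2 * v)) * B ^ ((n : ℝ) / u) := ⟨_, rfl⟩
  have hK0 : 0 < K := by rw [hK]; positivity
  rw [← hK]
  have hpt : ∀ a, F a * g a ^ (2 * n) ≤ K * ((1 / (2 * v)) * (F a ^ (2 * v) / A) + (n / u) * (g a ^ (2 * u) / B) + θ) := by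
    intro a
    have h1 := Real.geom_mean_le_arith_mean3_weighted (w₁ := 1 / (2 * v)) (w₂ := n / u) (w₃ := θ)
      (p₁ := F a ^ (2 * v) / A) (p₂ := g a ^ (2 * u) / B) (p₃ := 1) (by positivity) (by positivity) hθ0
      (div_nonneg (pow_nonneg (hF0 a) _) hA.le) (div_nonneg (pow_nonneg (hg0 a) _) hB.le) zero_le_one
      (by rw [hθ]; ring)
    rw [Real.one_rpow, mul_one, mul_one, Real.div_rpow (pow_nonneg (hF0 a) _) hA.le,
      Real.div_rpow (pow_nonneg (hg0 a) _) hB.le] at h1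
    have e1 : (F a ^ (2 * v)) ^ ((1 : ℝ) / (2 * v)) = F a := by
      rw [← Real.rpow_natCast, ← Real.rpow_mul (hF0 a)]
      push_cast
      rw [mul_one_div_cancel (by positivity), Real.rpow_one]
    have e2 : (g a ^ (2 * u)) ^ ((n : ℝ) / u) = g a ^ (2 * n) := by
      rw [← Real.rpow_natCast, ← Real.rpow_natCast, ← Real.rpow_mul (hg0 a)]
      congr 1
      push_cast
      field_simp
    rw [e1, e2] at h1
    have h2 : F a * g a ^ (2 * n) = K * (F a / A ^ ((1 : ℝ) / (2 * v)) * (g a ^ (2 * n) / B ^ ((n : ℝ) / u))) := by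
      rw [hK]
      have : A ^ ((1 : ℝ) / (2 * v)) ≠ 0 := by positivity
      have : B ^ ((n : ℝ) / u) ≠ 0 := by positivity
      field_simp
    rw [h2]
    exact mul_le_mul_of_nonneg_left h1 hK0.le
  calc ∑ a ∈ G, F a * g a ^ (2 * n)
      ≤ ∑ a ∈ G, K * ((1 / (2 * v)) * (F a ^ (2 * v) / A) + (n / u) * (g a ^ (2 * u) / B) + θ) :=
        Finset.sum_le_sum fun a _ => hpt a
    _ = K * ((1 / (2 * v)) * ((∑ a ∈ G, F a ^ (2 * v)) / A) + (n / u) * ((∑ a ∈ G, g a ^ (2 * u)) / B) + θ * G.card) := by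
        rw [← Finset.mul_sum, Finset.sum_add_distrib, Finset.sum_add_distrib, ← Finset.mul_sum, ← Finset.mul_sum,
          ← Finset.sum_div, ← Finset.sum_div, Finset.sum_const, nsmul_eq_mul]
        ring
    _ ≤ K * ((1 / (2 * v)) * G.card + (n / u) * G.card + θ * G.card) := by
        have h1 : (∑ a ∈ G, F a ^ (2 * v)) / A ≤ G.card := by
          rw [div_le_iff₀ hA]; linarith
        have h2 : (∑ a ∈ G, g a ^ (2 * u)) / B ≤ G.card := by
          rw [div_le_iff₀ hB]; linarith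
        gcongr
    _ = K * G.card := by rw [hθ]; ring

/-- counting solutions with a block. -/
theorem block_count {k n : ℕ} {ι : Type} (N : ℕ) (I : Finset ι) (Φ : ι → Fin k → ℤ) (S : Finset ℤ) (X m : ℕ)
    (hX : 1 ≤ X) (hS : S ⊆ Ico (0 : ℤ) X) (hI : ∀ i ∈ I, ∀ j, |Φ i j| ≤ m * (X : ℤ) ^ k)
    (hN : (m + 2 * n) * X ^ k < N) :
    (N : ℝ) ^ k * (((I ×ˢ ((Fintype.piFinset fun _ : Fin n => S) ×ˢ (Fintype.piFinset fun _ : Fin n => S))).filter
      (fun w => Φ w.1 + psm k w.2.1 = psm k w.2.2)).card : ℝ) ≤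
      ∑ a ∈ gr k N, ‖Sg N I Φ a‖ * ‖Sg N S (mom k) a‖ ^ (2 * n) := by
  classical
  have hb : ∀ u ∈ (Fintype.piFinset fun _ : Fin n => S), ∀ i, 0 ≤ u i ∧ u i < X := by
    intro u hu i
    exact Finset.mem_Ico.1 (hS (Fintype.mem_piFinset.1 hu i))
  have h := orth N (by omega) (I ×ˢ ((Fintype.piFinset fun _ : Fin n => S) ×ˢ (Fintype.piFinset fun _ : Fin n => S)))
    (fun w => Φ w.1 + (psm k w.2.1 + -psm k w.2.2)) (by
      intro w hw j
      rw [Finset.mem_product, Finset.mem_product] at hw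
      obtain ⟨h1, h2, h3⟩ := hw
      have a1 := hI _ h1 j
      have a2 := psm_bound k n X hX w.2.1 (hb _ h2) j
      have a3 := psm_bound k n X hX w.2.2 (hb _ h3) j
      have h3 : (((m + 2 * n) * X ^ k : ℕ) : ℤ) < N := by exact_mod_cast hN
      push_cast at h3
      simp only [Pi.add_apply, Pi.neg_apply]
      rw [abs_le] at a1
      have hXk : (0 : ℤ) ≤ n * (X : ℤ) ^ k := by positivity
      rw [abs_lt]
      constructor <;> linarith [a1.1, a1.2, a2.1, a2.2, a3.1, a3.2])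
  have f1 : ∀ w : ι × ((Fin n → ℤ) × (Fin n → ℤ)), Φ w.1 + (psm k w.2.1 + -psm k w.2.2) = 0 ↔
      Φ w.1 + psm k w.2.1 = psm k w.2.2 := by
    intro w
    rw [← add_assoc, ← sub_eq_add_neg, sub_eq_zero]
  simp only [f1] at h
  have e1 : ∀ a, Sg N (I ×ˢ ((Fintype.piFinset fun _ : Fin n => S) ×ˢ (Fintype.piFinset fun _ : Fin n => S)))
      (fun w => Φ w.1 + (psm k w.2.1 + -psm k w.2.2)) a =
      Sg N I Φ a * (Sg N S (mom k) a ^ n * (starRingEnd ℂ) (Sg N S (mom k) a ^ n)) := by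
    intro a
    rw [Sg_pow N S (mom k) a n]
    have e2 : (fun u : Fin n → ℤ => ∑ i, mom k (u i)) = psm k := by
      funext u; rfl
    rw [e2, Sg_conj, Sg_mul N _ (psm k) _ (fun i => -psm k i), Sg_mul]
  have h2 : ‖∑ a ∈ gr k N, Sg N (I ×ˢ ((Fintype.piFinset fun _ : Fin n => S) ×ˢ (Fintype.piFinset fun _ : Fin n => S)))
      (fun w => Φ w.1 + (psm k w.2.1 + -psm k w.2.2)) a‖ ≤
      ∑ a ∈ gr k N, ‖Sg N I Φ a‖ * ‖Sg N S (mom k) a‖ ^ (2 * n) := by
    refine (norm_sum_le _ _).trans (Finset.sum_le_sum fun a _ => ?_)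
    rw [e1, norm_mul, norm_mul, RCLike.norm_conj, norm_pow, ← pow_add, two_mul]
  rw [h, norm_mul, norm_pow, Complex.norm_natCast, Complex.norm_natCast] at h2
  exact h2

/-- the moment of the restricted block. -/
theorem momentE {k m q : ℕ} (hk : 2 * q * m ≤ k) (N X : ℕ) (hX : 1 ≤ X) (hN : 2 * q * m * X ^ k < N)
    (E : Finset ((Fin m → ℤ) × (Fin m → ℤ)))
    (h0 : ∀ e ∈ E, (∀ i, 0 ≤ e.1 i ∧ e.1 i < X) ∧ ∀ i, 0 ≤ e.2 i ∧ e.2 i < X)
    (hne : ∀ e ∈ E, ∀ i j, e.1 i ≠ e.2 j) :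
    ∑ a ∈ gr k N, ‖Sg N E (fun e => psm k e.1 - psm k e.2) a‖ ^ (2 * q) ≤
      ((2 * q * m).factorial * (E.card : ℝ) ^ q) * (N : ℝ) ^ k := by
  classical
  obtain ⟨Φ, hΦ⟩ : ∃ Φ : ((Fin m → ℤ) × (Fin m → ℤ)) → Fin k → ℤ, Φ = fun e => psm k e.1 - psm k e.2 := ⟨_, rfl⟩
  rw [← hΦ]
  have hb : ∀ e ∈ E, ∀ j, |Φ e j| ≤ m * (X : ℤ) ^ k := by
    intro e he j
    have a1 := psm_bound k m X hX e.1 (h0 e he).1 j
    have a2 := psm_bound k m X hX e.2 (h0 e he).2 j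
    rw [hΦ]
    simp only [Pi.sub_apply]
    rw [abs_le]
    constructor <;> linarith [a1.1, a1.2, a2.1, a2.2]
  have hb2 : ∀ u ∈ (Fintype.piFinset fun _ : Fin q => E), ∀ j, |(∑ i, Φ (u i)) j| ≤ q * (m * (X : ℤ) ^ k) := by
    intro u hu j
    rw [Finset.sum_apply]
    refine (Finset.abs_sum_le_sum_abs _ _).trans ?_
    calc ∑ i, |Φ (u i) j| ≤ ∑ _i : Fin q, (m * (X : ℤ) ^ k) :=
          Finset.sum_le_sum fun i _ => hb _ (Fintype.mem_piFinset.1 hu i) j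
      _ = q * (m * (X : ℤ) ^ k) := by simp
  have h1 := moment_eq N (by omega) (Fintype.piFinset fun _ : Fin q => E) (fun u => ∑ i, Φ (u i)) (by
    intro x hx y hy j
    have a1 := hb2 x hx j
    have a2 := hb2 y hy j
    have a3 : ((2 * q * m * X ^ k : ℕ) : ℤ) < N := by exact_mod_cast hN
    push_cast at a3
    rw [abs_le] at a1 a2
    rw [abs_lt]
    constructor <;> nlinarith [a1.1, a1.2, a2.1, a2.2, a3])
  have h2 : ∀ a, ‖Sg N E Φ a‖ ^ (2 * q) = ‖Sg N (Fintype.piFinset fun _ : Fin q => E) (fun u => ∑ i, Φ (u i)) a‖ ^ 2 := by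
    intro a
    rw [← Sg_pow, norm_pow, ← pow_mul, mul_comm]
  rw [Finset.sum_congr rfl fun a _ => h2 a, h1, mul_comm]
  refine mul_le_mul_of_nonneg_right ?_ (by positivity)
  refine le_trans ?_ (energy hk E (fun e he => ⟨fun i => ((h0 e he).1 i).1, fun i => ((h0 e he).2 i).1⟩) hne)
  refine Nat.cast_le.2 (Finset.card_le_card ?_)
  intro w hw
  rw [Finset.mem_filter] at hw ⊢
  refine ⟨hw.1, fun j => ?_⟩
  have h3 := congrFun hw.2 j
  rw [Finset.sum_apply, Finset.sum_apply, hΦ] at h3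
  simp only [Pi.sub_apply, psm_apply] at h3
  exact h3

/-- **the main bound in integers.** -/
theorem mainZ (k m q n : ℕ) (hk : 1 ≤ k) (hm : 1 ≤ m) (hq : 1 ≤ q) (hkm : 2 * q * m ≤ k)
    (hn : 2 * q * n + sk k ≤ 2 * q * sk k) (ε : ℝ) (hε : 0 < ε) :
    ∃ C : ℝ, 1 ≤ C ∧ ∀ X : ℕ, 1 ≤ X → ∀ S : Finset ℤ, S ⊆ Ico (0 : ℤ) X →
      ∀ E : Finset ((Fin m → ℤ) × (Fin m → ℤ)), (∀ e ∈ E, (∀ i, e.1 i ∈ S) ∧ ∀ i, e.2 i ∈ S) →
      (∀ e ∈ E, ∀ i j, e.1 i ≠ e.2 j) →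
      (((E ×ˢ ((Fintype.piFinset fun _ : Fin n => S) ×ˢ (Fintype.piFinset fun _ : Fin n => S))).filter
        (fun w => (psm k w.1.1 - psm k w.1.2) + psm k w.2.1 = psm k w.2.2)).card : ℝ) ≤
        C * (X : ℝ) ^ ε * (S.card : ℝ) ^ n * Real.sqrt (E.card : ℝ) := by
  classical
  obtain ⟨C, hC1, hC⟩ := dec_sub k hk ε hε
  have hu := sk_pos k hk
  obtain ⟨u, hudef⟩ : ∃ u, u = sk k := ⟨_, rfl⟩
  rw [← hudef] at hn hC hu
  refine ⟨(2 * q * m).factorial * C, ?_, ?_⟩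
  · have : (1 : ℝ) ≤ ((2 * q * m).factorial : ℝ) := by exact_mod_cast Nat.factorial_pos _
    nlinarith
  intro X hX S hS E hE hne
  have hXR : (1 : ℝ) ≤ X := by exact_mod_cast hX
  rcases E.eq_empty_or_nonempty with rfl | ⟨e0, he0⟩
  · rw [Finset.empty_product, Finset.filter_empty, Finset.card_empty, Nat.cast_zero]
    positivity
  have hEpos : (0 : ℝ) < E.card := by exact_mod_cast Finset.card_pos.2 ⟨e0, he0⟩
  have hSpos : (0 : ℝ) < S.card := by
    have : (e0.1 ⟨0, hm⟩) ∈ S := (hE e0 he0).1 _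
    exact_mod_cast Finset.card_pos.2 ⟨_, this⟩
  obtain ⟨N, hN⟩ : ∃ N, N = (2 * q * m + m + 2 * n + u) * X ^ k + 1 := ⟨_, rfl⟩
  have hXk : 0 < X ^ k := by positivity
  have hN1 : 2 * q * m * X ^ k < N := by
    rw [hN]; exact Nat.lt_succ_of_le (Nat.mul_le_mul_right _ (by omega))
  have hN2 : (m + 2 * n) * X ^ k < N := by
    rw [hN]; exact Nat.lt_succ_of_le (Nat.mul_le_mul_right _ (by omega))
  have hN3 : u * X ^ k < N := by
    rw [hN]; exact Nat.lt_succ_of_le (Nat.mul_le_mul_right _ (by omega))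
  have hNpos : (0 : ℝ) < (N : ℝ) ^ k := by
    have : (0 : ℝ) < N := by exact_mod_cast (by omega : 0 < N)
    positivity
  have hEb : ∀ e ∈ E, (∀ i, 0 ≤ e.1 i ∧ e.1 i < X) ∧ ∀ i, 0 ≤ e.2 i ∧ e.2 i < X := fun e he =>
    ⟨fun i => Finset.mem_Ico.1 (hS ((hE e he).1 i)), fun i => Finset.mem_Ico.1 (hS ((hE e he).2 i))⟩
  have h1 := block_count (n := n) N E (fun e => psm k e.1 - psm k e.2) S X m hX hS (by
    intro e he j
    have a1 := psm_bound k m X hX e.1 (hEb e he).1 j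
    have a2 := psm_bound k m X hX e.2 (hEb e he).2 j
    simp only [Pi.sub_apply]
    rw [abs_le]
    constructor <;> linarith [a1.1, a1.2, a2.1, a2.2]) hN2
  have h2 := momentE hkm N X hX hN1 E hEb hne
  have h3 := hC X hX S hS N hN3
  have hcard : ((gr k N).card : ℝ) = (N : ℝ) ^ k := by rw [card_gr]; push_cast; rfl
  have h4 := hold (gr k N) (fun a => ‖Sg N E (fun e => psm k e.1 - psm k e.2) a‖) (fun a => ‖Sg N S (mom k) a‖)
    (fun a => norm_nonneg _) (fun a => norm_nonneg _) q n u hq hu hn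
    ((2 * q * m).factorial * (E.card : ℝ) ^ q) (C * (X : ℝ) ^ ε * (S.card : ℝ) ^ u)
    (by positivity) (by positivity) (by rw [hcard]; exact h2) (by rw [hcard]; exact h3)
  rw [hcard] at h4
  have h5 := h1.trans h4
  have h6 : ((((E ×ˢ ((Fintype.piFinset fun _ : Fin n => S) ×ˢ (Fintype.piFinset fun _ : Fin n => S))).filter
      (fun w => (psm k w.1.1 - psm k w.1.2) + psm k w.2.1 = psm k w.2.2)).card : ℕ) : ℝ) ≤
      ((2 * q * m).factorial * (E.card : ℝ) ^ q) ^ ((1 : ℝ) / (2 * q)) *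
        (C * (X : ℝ) ^ ε * (S.card : ℝ) ^ u) ^ ((n : ℝ) / u) := by
    rw [mul_comm] at h5
    exact le_of_mul_le_mul_right h5 hNpos
  refine h6.trans ?_
  have hq0 : (0 : ℝ) < q := by exact_mod_cast hq
  have hu0 : (0 : ℝ) < u := by exact_mod_cast hu
  have hfac : (1 : ℝ) ≤ ((2 * q * m).factorial : ℝ) := by exact_mod_cast Nat.factorial_pos _
  have hnu : (n : ℝ) / u ≤ 1 := by
    rw [div_le_one hu0]
    have : 2 * q * n ≤ 2 * q * u := by omega
    exact_mod_cast Nat.le_of_mul_le_mul_left this (by omega)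
  have b1 : ((2 * q * m).factorial * (E.card : ℝ) ^ q) ^ ((1 : ℝ) / (2 * q)) ≤
      (2 * q * m).factorial * Real.sqrt (E.card : ℝ) := by
    rw [Real.mul_rpow (by positivity) (by positivity)]
    have c1 : (((2 * q * m).factorial : ℝ)) ^ ((1 : ℝ) / (2 * q)) ≤ (2 * q * m).factorial := by
      calc (((2 * q * m).factorial : ℝ)) ^ ((1 : ℝ) / (2 * q)) ≤ (((2 * q * m).factorial : ℝ)) ^ (1 : ℝ) := by
            refine Real.rpow_le_rpow_of_exponent_le hfac ?_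
            rw [div_le_one (by positivity)]
            have : (1 : ℝ) ≤ q := by exact_mod_cast hq
            linarith
        _ = _ := Real.rpow_one _
    have c2 : ((E.card : ℝ) ^ q) ^ ((1 : ℝ) / (2 * q)) = Real.sqrt (E.card : ℝ) := by
      rw [← Real.rpow_natCast, ← Real.rpow_mul hEpos.le, Real.sqrt_eq_rpow]
      congr 1
      field_simp
    rw [c2]
    exact mul_le_mul_of_nonneg_right c1 (Real.sqrt_nonneg _)
  have b2 : (C * (X : ℝ) ^ ε * (S.card : ℝ) ^ u) ^ ((n : ℝ) / u) ≤ C * (X : ℝ) ^ ε * (S.card : ℝ) ^ n := by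
    rw [Real.mul_rpow (by positivity) (by positivity)]
    have hCX : (1 : ℝ) ≤ C * (X : ℝ) ^ ε := by
      have : (1 : ℝ) ≤ (X : ℝ) ^ ε := Real.one_le_rpow hXR hε.le
      nlinarith
    have c1 : (C * (X : ℝ) ^ ε) ^ ((n : ℝ) / u) ≤ C * (X : ℝ) ^ ε := by
      calc (C * (X : ℝ) ^ ε) ^ ((n : ℝ) / u) ≤ (C * (X : ℝ) ^ ε) ^ (1 : ℝ) :=
            Real.rpow_le_rpow_of_exponent_le hCX hnu
        _ = _ := Real.rpow_one _
    have c2 : ((S.card : ℝ) ^ u) ^ ((n : ℝ) / u) = (S.card : ℝ) ^ n := by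
      rw [← Real.rpow_natCast, ← Real.rpow_natCast, ← Real.rpow_mul hSpos.le]
      congr 1
      field_simp
    rw [c2]
    exact mul_le_mul_of_nonneg_right c1 (by positivity)
  calc _ ≤ ((2 * q * m).factorial * Real.sqrt (E.card : ℝ)) * (C * (X : ℝ) ^ ε * (S.card : ℝ) ^ n) :=
        mul_le_mul b1 b2 (by positivity) (by positivity)
    _ = _ := by ring

end Pool.Agent.L5helper96.VS
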