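import Pool.Agent.L5helper96.VS.DF

/-! Natural number solutions. -/

set_option autoImplicit false

namespace Pool.Agent.L5helper96.VS

open Finset Pool.Agent.helper132_sph Pool.Agent.helper132_poly Pool.Agent.helper132_quad Pool.Agent.helper132_dc

open scoped Classical in
/-- The solutions `(x, y)` with all entries in `S` of Vinogradov's system of degree `k` in `s` pairs of variables. -/
noncomputable def sol (s k : ℕ) (S : Finset ℕ) : Finset ((Fin s → ℕ) × (Fin s → ℕ)) :=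
  ((Fintype.piFinset fun _ : Fin s => S) ×ˢ (Fintype.piFinset fun _ : Fin s => S)).filter fun p =>
    ∀ j : Fin k, ∑ i : Fin s, p.1 i ^ (j.val + 1) = ∑ i : Fin s, p.2 i ^ (j.val + 1)

lemma mem_sol {s k : ℕ} {S : Finset ℕ} {p : (Fin s → ℕ) × (Fin s → ℕ)} : p ∈ sol s k S ↔
    ((∀ i, p.1 i ∈ S) ∧ ∀ i, p.2 i ∈ S) ∧
      ∀ j : Fin k, ∑ i : Fin s, p.1 i ^ (j.val + 1) = ∑ i : Fin s, p.2 i ^ (j.val + 1) := by
  unfold sol
  rw [Finset.mem_filter, Finset.mem_product, Fintype.mem_piFinset, Fintype.mem_piFinset]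

/-- extending an injection to a bijection. -/
lemma ext_equiv {m s : ℕ} (ι : Fin m → Fin s) (hι : Function.Injective ι) :
    ∃ e : Fin m ⊕ Fin (s - m) ≃ Fin s, ∀ i, e (Sum.inl i) = ι i := by
  classical
  have e1 : Fin m ≃ {x : Fin s // x ∈ Set.range ι} := Equiv.ofInjective ι hι
  obtain ⟨e1, he1⟩ : ∃ e1 : Fin m ≃ {x : Fin s // x ∈ Set.range ι}, ∀ i, (e1 i : Fin s) = ι i :=
    ⟨Equiv.ofInjective ι hι, fun i => by simp⟩
  have hc : Fintype.card {x : Fin s // ¬ x ∈ Set.range ι} = s - m := by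
    rw [Fintype.card_subtype_compl, Fintype.card_fin, Fintype.card_congr e1.symm, Fintype.card_fin]
  obtain ⟨e2⟩ : Nonempty (Fin (s - m) ≃ {x : Fin s // ¬ x ∈ Set.range ι}) :=
    ⟨(Fintype.equivFinOfCardEq hc).symm⟩
  refine ⟨(Equiv.sumCongr e1 e2).trans (Equiv.sumCompl fun x => x ∈ Set.range ι), fun i => ?_⟩
  rw [Equiv.trans_apply, Equiv.sumCongr_apply, Sum.map_inl, Equiv.sumCompl_apply_inl, he1]

/-- splitting power sums. -/
lemma psum_split {m s : ℕ} (e : Fin m ⊕ Fin (s - m) ≃ Fin s) (x : Fin s → ℕ) (l : ℕ) :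
    ∑ i, (x i : ℤ) ^ l = ∑ i, ((x (e (Sum.inl i)) : ℕ) : ℤ) ^ l + ∑ i, ((x (e (Sum.inr i)) : ℕ) : ℤ) ^ l := by
  rw [← Equiv.sum_comp e (fun i => (x i : ℤ) ^ l), Fintype.sum_sum_type]

lemma psum_cast {s k : ℕ} {p : (Fin s → ℕ) × (Fin s → ℕ)}
    (h : ∀ j : Fin k, ∑ i : Fin s, p.1 i ^ (j.val + 1) = ∑ i : Fin s, p.2 i ^ (j.val + 1)) (j : Fin k) :
    ∑ i, (p.1 i : ℤ) ^ ((j : ℕ) + 1) = ∑ i, (p.2 i : ℤ) ^ ((j : ℕ) + 1) := by
  have h1 := h j
  exact_mod_cast h1

/-- **sparse sets of `2m` variables.** -/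
theorem part1 (k m q s : ℕ) (hm : 1 ≤ m) (hq : 1 ≤ q) (hkm : 2 * q * m ≤ k)
    (hs : 4 * q * (s - m) ≤ (2 * q - 1) * (k * (k + 1))) (ε : ℝ) (hε : 0 < ε) :
    ∃ C : ℝ, 0 < C ∧ ∀ N : ℕ, 1 ≤ N → ∀ S : Finset ℕ, S ⊆ Icc 1 N →
      ∀ ι κ : Fin m → Fin s, Function.Injective ι → Function.Injective κ →
      ∀ E : Finset ((Fin m → ℕ) × (Fin m → ℕ)), (∀ e ∈ E, ∀ i j, e.1 i ≠ e.2 j) →
      (((sol s k S).filter (fun p => (p.1 ∘ ι, p.2 ∘ κ) ∈ E)).card : ℝ) ≤
        C * (N : ℝ) ^ ε * (S.card : ℝ) ^ (s - m) * Real.sqrt (E.card : ℝ) := by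
  classical
  have hk : 1 ≤ k := by nlinarith
  obtain ⟨n, hn⟩ : ∃ n, n = s - m := ⟨_, rfl⟩
  have htwo := two_sk k
  have hnk : 2 * q * n + sk k ≤ 2 * q * sk k := by
    rw [← hn] at hs
    obtain ⟨q', rfl⟩ : ∃ q', q = q' + 1 := ⟨q - 1, by omega⟩
    have e1 : 2 * (q' + 1) - 1 = 2 * q' + 1 := by omega
    rw [e1, ← htwo] at hs
    nlinarith
  obtain ⟨C, hC1, hC⟩ := mainZ k m q n hk hm hq hkm hnk ε hε
  refine ⟨C * 2 ^ ε, by positivity, ?_⟩
  intro N hN S hS ι κ hι hκ E hE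
  obtain ⟨e, he⟩ := ext_equiv ι hι
  obtain ⟨e', he'⟩ := ext_equiv κ hκ
  obtain ⟨SZ, hSZ⟩ : ∃ SZ : Finset ℤ, SZ = S.image (fun n : ℕ => (n : ℤ)) := ⟨_, rfl⟩
  have hSZc : SZ.card = S.card := by
    rw [hSZ]; exact Finset.card_image_of_injective _ Nat.cast_injective
  have hSZm : ∀ a : ℕ, a ∈ S → (a : ℤ) ∈ SZ := fun a ha => by
    rw [hSZ]; exact Finset.mem_image_of_mem _ ha
  have hSZI : SZ ⊆ Ico (0 : ℤ) ((N + 1 : ℕ) : ℤ) := by
    intro z hz
    rw [hSZ, Finset.mem_image] at hz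
    obtain ⟨a, ha, rfl⟩ := hz
    have := Finset.mem_Icc.1 (hS ha)
    rw [Finset.mem_Ico]
    push_cast
    omega
  obtain ⟨c, hc⟩ : ∃ c : ((Fin m → ℕ) × (Fin m → ℕ)) → ((Fin m → ℤ) × (Fin m → ℤ)),
      ∀ e, c e = ((fun i => ((e.1 i : ℕ) : ℤ)), (fun i => ((e.2 i : ℕ) : ℤ))) := ⟨_, fun _ => rfl⟩
  have hcinj : Function.Injective c := by
    intro e e' h
    rw [hc, hc, Prod.mk.injEq] at h
    refine Prod.ext (funext fun i => ?_) (funext fun i => ?_)
    · exact_mod_cast congrFun h.1 i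
    · exact_mod_cast congrFun h.2 i
  obtain ⟨EZ, hEZ⟩ : ∃ EZ : Finset ((Fin m → ℤ) × (Fin m → ℤ)),
      EZ = (E.filter (fun e => (∀ i, e.1 i ∈ S) ∧ ∀ i, e.2 i ∈ S)).image c := ⟨_, rfl⟩
  have hEZc : EZ.card ≤ E.card := by
    rw [hEZ]
    exact Finset.card_image_le.trans (Finset.card_filter_le _ _)
  have hEZ1 : ∀ e ∈ EZ, (∀ i, e.1 i ∈ SZ) ∧ ∀ i, e.2 i ∈ SZ := by
    intro z hz
    rw [hEZ, Finset.mem_image] at hz
    obtain ⟨a, ha, rfl⟩ := hz
    rw [Finset.mem_filter] at ha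
    rw [hc]
    exact ⟨fun i => hSZm _ (ha.2.1 i), fun i => hSZm _ (ha.2.2 i)⟩
  have hEZ2 : ∀ e ∈ EZ, ∀ i j, e.1 i ≠ e.2 j := by
    intro z hz i j
    rw [hEZ, Finset.mem_image] at hz
    obtain ⟨a, ha, rfl⟩ := hz
    rw [Finset.mem_filter] at ha
    rw [hc]
    intro h
    have h' : ((a.1 i : ℕ) : ℤ) = ((a.2 j : ℕ) : ℤ) := h
    exact hE a ha.1 i j (by exact_mod_cast h')
  have hmain := hC (N + 1) (by omega) SZ hSZI EZ hEZ1 hEZ2
  rw [hSZc] at hmain
  obtain ⟨φ, hφ⟩ : ∃ φ : ((Fin s → ℕ) × (Fin s → ℕ)) →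
      ((Fin m → ℤ) × (Fin m → ℤ)) × ((Fin n → ℤ) × (Fin n → ℤ)), ∀ p, φ p =
        (c (p.1 ∘ ι, p.2 ∘ κ), ((fun i => ((p.1 (e (Sum.inr (Fin.cast hn i))) : ℕ) : ℤ)),
          (fun i => ((p.2 (e' (Sum.inr (Fin.cast hn i))) : ℕ) : ℤ)))) := ⟨_, fun _ => rfl⟩
  have hle : ((sol s k S).filter (fun p => (p.1 ∘ ι, p.2 ∘ κ) ∈ E)).card ≤
      ((EZ ×ˢ ((Fintype.piFinset fun _ : Fin n => SZ) ×ˢ (Fintype.piFinset fun _ : Fin n => SZ))).filter
        (fun w => (psm k w.1.1 - psm k w.1.2) + psm k w.2.1 = psm k w.2.2)).card := by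
    refine Finset.card_le_card_of_injOn φ ?_ ?_
    · intro p hp
      rw [Finset.mem_coe, Finset.mem_filter, mem_sol] at hp
      obtain ⟨⟨⟨h1, h2⟩, h3⟩, h4⟩ := hp
      rw [Finset.mem_coe, Finset.mem_filter, Finset.mem_product, Finset.mem_product, Fintype.mem_piFinset,
        Fintype.mem_piFinset, hφ]
      refine ⟨⟨?_, fun i => hSZm _ (h1 _), fun i => hSZm _ (h2 _)⟩, ?_⟩
      · rw [hEZ]
        exact Finset.mem_image_of_mem _ (Finset.mem_filter.2 ⟨h4, fun i => h1 _, fun i => h2 _⟩)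
      · funext j
        rw [hc]
        simp only [Pi.add_apply, Pi.sub_apply, psm_apply, Function.comp_apply]
        have a1 := psum_split e p.1 ((j : ℕ) + 1)
        have a2 := psum_split e' p.2 ((j : ℕ) + 1)
        have a3 := psum_cast h3 j
        simp only [he] at a1
        simp only [he'] at a2
        subst hn
        simp only [Fin.cast_refl, id_eq]
        linarith
    · intro p _ p' _ h
      rw [hφ, hφ, Prod.mk.injEq] at h
      have h1 := hcinj h.1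
      have h2 := Prod.mk.inj h.2
      rw [Prod.mk.injEq] at h1
      subst hn
      refine Prod.ext (funext fun i => ?_) (funext fun i => ?_)
      · obtain ⟨t, rfl⟩ := e.surjective i
        rcases t with t | t
        · rw [he]; exact congrFun h1.1 t
        · have := congrFun h2.1 t
          simp only [Fin.cast_refl, id_eq] at this
          exact_mod_cast this
      · obtain ⟨t, rfl⟩ := e'.surjective i
        rcases t with t | t
        · rw [he']; exact congrFun h1.2 t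
        · have := congrFun h2.2 t
          simp only [Fin.cast_refl, id_eq] at this
          exact_mod_cast this
  rw [← hn]
  have hNR : (1 : ℝ) ≤ N := by exact_mod_cast hN
  calc (((sol s k S).filter (fun p => (p.1 ∘ ι, p.2 ∘ κ) ∈ E)).card : ℝ)
      ≤ _ := Nat.cast_le.2 hle
    _ ≤ C * ((N + 1 : ℕ) : ℝ) ^ ε * (S.card : ℝ) ^ n * Real.sqrt (EZ.card : ℝ) := hmain
    _ ≤ C * (2 ^ ε * (N : ℝ) ^ ε) * (S.card : ℝ) ^ n * Real.sqrt (E.card : ℝ) := by
        have h1 : ((N + 1 : ℕ) : ℝ) ^ ε ≤ 2 ^ ε * (N : ℝ) ^ ε := by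
          rw [← Real.mul_rpow (by norm_num) (by linarith)]
          refine Real.rpow_le_rpow (by positivity) ?_ hε.le
          push_cast; linarith
        have h2 : Real.sqrt (EZ.card : ℝ) ≤ Real.sqrt (E.card : ℝ) := Real.sqrt_le_sqrt (by exact_mod_cast hEZc)
        gcongr
    _ = _ := by ring

/-- **prescribed differences.** -/
theorem part2 (k s : ℕ) (hk : 3 ≤ k) (hs : 2 * s ≤ k * (k + 1)) (ε : ℝ) (hε : 0 < ε) :
    ∃ C : ℝ, 0 < C ∧ ∀ N : ℕ, 1 ≤ N → ∀ S : Finset ℕ, S ⊆ Icc 1 N →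
      ∀ i j : Fin s, ∀ D : Finset ℤ, (0 : ℤ) ∉ D →
      (((sol s k S).filter (fun p => (p.1 i : ℤ) - (p.2 j : ℤ) ∈ D)).card : ℝ) ≤
        C * (N : ℝ) ^ ε * (D.card : ℝ) * (S.card : ℝ) ^ ((s : ℝ) - 1 / 2) := by
  classical
  rcases Nat.eq_zero_or_pos s with rfl | hs1
  · exact ⟨1, one_pos, fun N _ S _ i => i.elim0⟩
  obtain ⟨n, hn⟩ : ∃ n, n = s - 1 := ⟨_, rfl⟩
  have htwo := two_sk k
  obtain ⟨C, hC1, hC⟩ := diffZ k n hk (by omega) ε hε
  refine ⟨C * 2 ^ ε, by positivity, ?_⟩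
  intro N hN S hS i j D hD
  obtain ⟨SZ, hSZ⟩ : ∃ SZ : Finset ℤ, SZ = S.image (fun n : ℕ => (n : ℤ)) := ⟨_, rfl⟩
  have hSZc : SZ.card = S.card := by
    rw [hSZ]; exact Finset.card_image_of_injective _ Nat.cast_injective
  have hSZm : ∀ a : ℕ, a ∈ S → (a : ℤ) ∈ SZ := fun a ha => by
    rw [hSZ]; exact Finset.mem_image_of_mem _ ha
  have hSZI : SZ ⊆ Ico (0 : ℤ) ((N + 1 : ℕ) : ℤ) := by
    intro z hz
    rw [hSZ, Finset.mem_image] at hz
    obtain ⟨a, ha, rfl⟩ := hz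
    have := Finset.mem_Icc.1 (hS ha)
    rw [Finset.mem_Ico]
    push_cast
    omega
  have hNR : (1 : ℝ) ≤ N := by exact_mod_cast hN
  rcases S.eq_empty_or_nonempty with hS0 | hSne
  · have : (sol s k S).filter (fun p => (p.1 i : ℤ) - (p.2 j : ℤ) ∈ D) = ∅ := by
      rw [Finset.eq_empty_iff_forall_notMem]
      intro p hp
      rw [Finset.mem_filter, mem_sol] at hp
      have := hp.1.1.1 i
      rw [hS0] at this
      exact Finset.notMem_empty _ this
    rw [this, Finset.card_empty, Nat.cast_zero]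
    positivity
  have hSpos : (0 : ℝ) < S.card := by exact_mod_cast Finset.card_pos.2 hSne
  -- one difference
  have hone : ∀ h : ℤ, h ≠ 0 → (((sol s k S).filter (fun p => (p.1 i : ℤ) - (p.2 j : ℤ) = h)).card : ℝ) ≤
      C * 2 ^ ε * (N : ℝ) ^ ε * (S.card : ℝ) ^ ((s : ℝ) - 1 / 2) := by
    intro h hh
    have hmain := hC (N + 1) (by omega) SZ hSZI h hh
    obtain ⟨e, he⟩ := ext_equiv (fun _ : Fin 1 => i) (Function.injective_of_subsingleton _)
    obtain ⟨e', he'⟩ := ext_equiv (fun _ : Fin 1 => j) (Function.injective_of_subsingleton _)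
    obtain ⟨φ, hφ⟩ : ∃ φ : ((Fin s → ℕ) × (Fin s → ℕ)) → ℤ × ((Fin n → ℤ) × (Fin n → ℤ)), ∀ p, φ p =
        ((p.2 j : ℤ), ((fun i => ((p.1 (e (Sum.inr (Fin.cast hn i))) : ℕ) : ℤ)),
          (fun i => ((p.2 (e' (Sum.inr (Fin.cast hn i))) : ℕ) : ℤ)))) := ⟨_, fun _ => rfl⟩
    have hle : ((sol s k S).filter (fun p => (p.1 i : ℤ) - (p.2 j : ℤ) = h)).card ≤
        (((SZ.filter (fun y => y + h ∈ SZ)) ×ˢ ((Fintype.piFinset fun _ : Fin n => SZ) ×ˢ
          (Fintype.piFinset fun _ : Fin n => SZ))).filter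
          (fun w => (mom k (w.1 + h) - mom k w.1) + psm k w.2.1 = psm k w.2.2)).card := by
      refine Finset.card_le_card_of_injOn φ ?_ ?_
      · intro p hp
        rw [Finset.mem_coe, Finset.mem_filter, mem_sol] at hp
        obtain ⟨⟨⟨h1, h2⟩, h3⟩, h4⟩ := hp
        have h5 : (p.2 j : ℤ) + h = p.1 i := by rw [← h4]; ring
        rw [Finset.mem_coe, Finset.mem_filter, Finset.mem_product, Finset.mem_product, Fintype.mem_piFinset,
          Fintype.mem_piFinset, hφ]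
        refine ⟨⟨?_, fun i => hSZm _ (h1 _), fun i => hSZm _ (h2 _)⟩, ?_⟩
        · rw [Finset.mem_filter]
          refine ⟨hSZm _ (h2 j), ?_⟩
          rw [h5]
          exact hSZm _ (h1 i)
        · funext l
          rw [h5]
          simp only [Pi.add_apply, Pi.sub_apply, psm_apply, mom]
          have a1 := psum_split e p.1 ((l : ℕ) + 1)
          have a2 := psum_split e' p.2 ((l : ℕ) + 1)
          have a3 := psum_cast h3 l
          simp only [he, Fin.sum_univ_one] at a1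
          simp only [he', Fin.sum_univ_one] at a2
          subst hn
          simp only [Fin.cast_refl, id_eq]
          linarith
      · intro p hp p' hp' hpp
        rw [Finset.mem_coe, Finset.mem_filter, mem_sol] at hp hp'
        rw [hφ, hφ, Prod.mk.injEq, Prod.mk.injEq] at hpp
        have g1 : p.2 j = p'.2 j := by exact_mod_cast hpp.1
        have g2 : p.1 i = p'.1 i := by
          have b1 := hp.2
          have b2 := hp'.2
          rw [g1] at b1
          have : (p.1 i : ℤ) = p'.1 i := by linarith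
          exact_mod_cast this
        subst hn
        refine Prod.ext (funext fun t => ?_) (funext fun t => ?_)
        · obtain ⟨t, rfl⟩ := e.surjective t
          rcases t with t | t
          · rw [he]; exact g2
          · have := congrFun hpp.2.1 t
            simp only [Fin.cast_refl, id_eq] at this
            exact_mod_cast this
        · obtain ⟨t, rfl⟩ := e'.surjective t
          rcases t with t | t
          · rw [he']; exact g1
          · have := congrFun hpp.2.2 t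
            simp only [Fin.cast_refl, id_eq] at this
            exact_mod_cast this
    have hTc : ((SZ.filter (fun y => y + h ∈ SZ)).card : ℝ) ≤ S.card := by
      rw [← hSZc]
      exact_mod_cast Finset.card_filter_le _ _
    calc (((sol s k S).filter (fun p => (p.1 i : ℤ) - (p.2 j : ℤ) = h)).card : ℝ)
        ≤ _ := Nat.cast_le.2 hle
      _ ≤ _ := hmain
      _ ≤ C * (2 ^ ε * (N : ℝ) ^ ε) * (S.card : ℝ) ^ n * Real.sqrt (S.card : ℝ) := by
          have h1 : ((N + 1 : ℕ) : ℝ) ^ ε ≤ 2 ^ ε * (N : ℝ) ^ ε := by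
            rw [← Real.mul_rpow (by norm_num) (by linarith)]
            refine Real.rpow_le_rpow (by positivity) ?_ hε.le
            push_cast; linarith
          rw [hSZc]
          gcongr
      _ = C * 2 ^ ε * (N : ℝ) ^ ε * ((S.card : ℝ) ^ n * Real.sqrt (S.card : ℝ)) := by ring
      _ = C * 2 ^ ε * (N : ℝ) ^ ε * (S.card : ℝ) ^ ((s : ℝ) - 1 / 2) := by
          congr 1
          rw [Real.sqrt_eq_rpow, ← Real.rpow_natCast, ← Real.rpow_add hSpos]
          congr 1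
          rw [hn, Nat.cast_sub hs1]
          push_cast
          ring
  have hcov : ((sol s k S).filter (fun p => (p.1 i : ℤ) - (p.2 j : ℤ) ∈ D)).card ≤
      ∑ h ∈ D, ((sol s k S).filter (fun p => (p.1 i : ℤ) - (p.2 j : ℤ) = h)).card := by
    refine le_trans (Finset.card_le_card ?_) Finset.card_biUnion_le
    intro p hp
    rw [Finset.mem_filter] at hp
    rw [Finset.mem_biUnion]
    exact ⟨_, hp.2, Finset.mem_filter.2 ⟨hp.1, rfl⟩⟩
  calc (((sol s k S).filter (fun p => (p.1 i : ℤ) - (p.2 j : ℤ) ∈ D)).card : ℝ)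
      ≤ ((∑ h ∈ D, ((sol s k S).filter (fun p => (p.1 i : ℤ) - (p.2 j : ℤ) = h)).card : ℕ) : ℝ) :=
        Nat.cast_le.2 hcov
    _ = ∑ h ∈ D, (((sol s k S).filter (fun p => (p.1 i : ℤ) - (p.2 j : ℤ) = h)).card : ℝ) := by push_cast; rfl
    _ ≤ ∑ _h ∈ D, C * 2 ^ ε * (N : ℝ) ^ ε * (S.card : ℝ) ^ ((s : ℝ) - 1 / 2) := by
        refine Finset.sum_le_sum fun h hh => hone h ?_
        rintro rfl
        exact hD hh
    _ = _ := by rw [Finset.sum_const, nsmul_eq_mul]; ring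

end Pool.Agent.L5helper96.VS
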