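import Pool.Agent.L5helper96.VS.NT
import Pool.Agent.N541.LV.Main
import Pool.Agent.W346.PV.Diag

/-! Sparse relations. -/

set_option autoImplicit false

namespace Pool.Agent.L5helper96.VS

open Finset Pool.Agent.W89.VP

lemma mem_VS {s k N : ℕ} {p : (Fin s → ℕ) × (Fin s → ℕ)} : p ∈ VS s k N ↔ p ∈ sol s k (Icc 1 N) := by
  rw [mem_sol, VS, Finset.mem_filter, Finset.mem_product, Fintype.mem_piFinset, Fintype.mem_piFinset]

lemma mem_VN {s k N : ℕ} {p : (Fin s → ℕ) × (Fin s → ℕ)} : p ∈ VN s k N ↔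
    p ∈ sol s k (Icc 1 N) ∧ ¬ ∃ σ : Equiv.Perm (Fin s), p.2 = p.1 ∘ σ := by
  rw [VN, Finset.mem_filter, mem_VS]

/-- few non-diagonal solutions in a small number of variables. -/
theorem nd_bound (k r : ℕ) (hr : r ≤ k ∨ 2 * r * (r - 1) + 2 * k + 5 < 3 * k ^ 2) :
    ∃ C : ℝ, 0 ≤ C ∧ ∀ t : ℕ, t ≤ r → ∀ N : ℕ, 1 ≤ N → ((VN t k N).card : ℝ) ≤ C * (N : ℝ) ^ (t - 1) := by
  classical
  have hone : ∀ t : ℕ, t ≤ r → ∃ C : ℝ, 0 ≤ C ∧ ∀ N : ℕ, 1 ≤ N → ((VN t k N).card : ℝ) ≤ C * (N : ℝ) ^ (t - 1) := by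
    intro t ht
    rcases Nat.lt_or_ge k t with hkt | hkt
    · have hr2 : 2 * r * (r - 1) + 2 * k + 5 < 3 * k ^ 2 := by
        rcases hr with h | h
        · omega
        · exact h
      have ht2 : 2 * t * (t - 1) + 2 * k + 5 < 3 * k ^ 2 := by
        have : 2 * t * (t - 1) ≤ 2 * r * (r - 1) := Nat.mul_le_mul (by omega) (by omega)
        omega
      obtain ⟨d, rfl⟩ : ∃ d, t = k + (d + 1) := ⟨t - k - 1, by omega⟩
      obtain ⟨C1, h1⟩ := Pool.Agent.N541.LV.asym Pool.Agent.N541.LV.core Pool.Agent.N541.LV.pol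
        Pool.Agent.N541.LV.seqm k (d + 1) (by omega) (by
          have e : k + (d + 1) - 1 = k + d := by omega
          rw [e] at ht2
          nlinarith)
      obtain ⟨C2, hC2, h2⟩ := Pool.Agent.W346.PV.Diag.main (k + (d + 1)) (by omega)
      refine ⟨|C1| + C2, by positivity, fun N hN => ?_⟩
      have h3 := h1 N hN
      have h4 := h2 N hN
      obtain ⟨D, hD⟩ : ∃ D : ℝ, D = ((((Fintype.piFinset fun _ : Fin (k + (d + 1)) => Finset.Icc 1 N) ×ˢ
        (Fintype.piFinset fun _ : Fin (k + (d + 1)) => Finset.Icc 1 N)).filter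
        (fun p : (Fin (k + (d + 1)) → ℕ) × (Fin (k + (d + 1)) → ℕ) =>
          ∃ σ : Equiv.Perm (Fin (k + (d + 1))), p.2 = p.1 ∘ σ)).card : ℝ) := ⟨_, rfl⟩
      have hsplit : ((VS (k + (d + 1)) k N).card : ℝ) = (VN (k + (d + 1)) k N).card + D := by
        rw [hD]
        rw [← Nat.cast_add]
        congr 1
        rw [VN, ← Finset.card_filter_add_card_filter_not (s := VS (k + (d + 1)) k N)
          (fun p => ¬ ∃ σ : Equiv.Perm (Fin (k + (d + 1))), p.2 = p.1 ∘ σ)]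
        congr 1
        refine congrArg Finset.card ?_
        ext p
        rw [Finset.mem_filter, mem_VS, mem_sol, Finset.mem_filter, Finset.mem_product, Fintype.mem_piFinset,
          Fintype.mem_piFinset, not_not]
        constructor
        · rintro ⟨⟨h5, -⟩, h7⟩; exact ⟨h5, h7⟩
        · rintro ⟨h5, σ, h6⟩
          refine ⟨⟨h5, fun j => ?_⟩, σ, h6⟩
          rw [h6]
          exact (Equiv.sum_comp σ (fun i => p.1 i ^ (j.val + 1))).symm
      rw [← hD] at h4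
      have h5 : ((VN (k + (d + 1)) k N).card : ℝ) =
          (((VS (k + (d + 1)) k N).card : ℝ) - ((k + (d + 1)).factorial : ℝ) * (N : ℝ) ^ (k + (d + 1))) -
          (D - ((k + (d + 1)).factorial : ℝ) * (N : ℝ) ^ (k + (d + 1))) := by
        rw [hsplit]; ring
      rw [h5]
      have hN0 : (0 : ℝ) ≤ (N : ℝ) ^ (k + (d + 1) - 1) := by positivity
      have h6 := abs_le.1 h3
      have h7 := abs_le.1 h4
      have h8 : C1 * (N : ℝ) ^ (k + (d + 1) - 1) ≤ |C1| * (N : ℝ) ^ (k + (d + 1) - 1) :=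
        mul_le_mul_of_nonneg_right (le_abs_self C1) hN0
      linarith [h6.2, h7.1, h8]
    · refine ⟨0, le_rfl, fun N hN => ?_⟩
      have : VN t k N = ∅ := by
        rw [Finset.eq_empty_iff_forall_notMem]
        intro p hp
        rw [mem_VN, mem_sol] at hp
        refine hp.2 (Pool.Agent.R470.VM.newton_support p.1 p.2 hp.1.2 Finset.univ
          (fun i hi => absurd (Finset.mem_univ i) hi) ?_)
        rw [Finset.card_univ, Fintype.card_fin]
        exact hkt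
      rw [this, Finset.card_empty, Nat.cast_zero, zero_mul]
  choose! C hC0 hC using hone
  refine ⟨∑ t ∈ range (r + 1), |C t|, Finset.sum_nonneg fun t _ => abs_nonneg _, fun t ht N hN => ?_⟩
  refine (hC t ht N hN).trans (mul_le_mul_of_nonneg_right ?_ (by positivity))
  refine (le_abs_self _).trans ?_
  exact Finset.single_le_sum (f := fun t => |C t|) (fun _ _ => abs_nonneg _) (Finset.mem_range.2 (by omega))

/-- non-diagonal solutions whose pairs agree outside the image of `ι`. -/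
theorem agree_count {s k t N : ℕ} (ι : Fin t → Fin s) (hι : Function.Injective ι) (σ : Equiv.Perm (Fin s))
    (B : Finset ((Fin s → ℕ) × (Fin s → ℕ)))
    (hB : ∀ p ∈ B, p ∈ VN s k N ∧ ∀ i, i ∉ Set.range ι → p.1 i = p.2 (σ i)) :
    B.card ≤ N ^ (s - t) * (VN t k N).card := by
  classical
  obtain ⟨e, he⟩ := ext_equiv ι hι
  have hinr : ∀ i, e (Sum.inr i) ∉ Set.range ι := by
    rintro i ⟨j, hj⟩
    rw [← he j] at hj
    exact absurd (e.injective hj) (by simp)
  have hcard : N ^ (s - t) * (VN t k N).card =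
      ((Fintype.piFinset fun _ : Fin (s - t) => Icc 1 N) ×ˢ VN t k N).card := by
    rw [Finset.card_product, Fintype.card_piFinset]
    simp
  rw [hcard]
  refine Finset.card_le_card_of_injOn
    (fun p => ((fun i => p.1 (e (Sum.inr i))), ((fun i => p.1 (ι i)), (fun i => p.2 (σ (ι i)))))) ?_ ?_
  · intro p hp
    obtain ⟨h1, h2⟩ := hB p hp
    rw [mem_VN, mem_sol] at h1
    obtain ⟨⟨⟨h3, h4⟩, h5⟩, h6⟩ := h1
    rw [Finset.mem_coe, Finset.mem_product, Fintype.mem_piFinset, mem_VN, mem_sol]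
    refine ⟨fun i => h3 _, ⟨⟨fun i => h3 _, fun i => h4 _⟩, fun j => ?_⟩, ?_⟩
    · have g1 := h5 j
      rw [← Equiv.sum_comp e (fun i => p.1 i ^ (j.val + 1)), Fintype.sum_sum_type,
        ← Equiv.sum_comp σ (fun i => p.2 i ^ (j.val + 1)), ← Equiv.sum_comp e (fun i => p.2 (σ i) ^ (j.val + 1)),
        Fintype.sum_sum_type] at g1
      have g2 : ∑ i, p.1 (e (Sum.inr i)) ^ (j.val + 1) = ∑ i, p.2 (σ (e (Sum.inr i))) ^ (j.val + 1) := by
        refine Finset.sum_congr rfl fun i _ => ?_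
        rw [h2 _ (hinr i)]
      rw [g2] at g1
      have g3 := Nat.add_right_cancel g1
      simp only [he] at g3
      exact g3
    · rintro ⟨τ, hτ⟩
      apply h6
      simp only at hτ
      refine ⟨σ.symm.trans ((e.symm.trans (Equiv.sumCongr τ (Equiv.refl _))).trans e), ?_⟩
      funext i
      rw [Function.comp_apply, Equiv.trans_apply, Equiv.trans_apply, Equiv.trans_apply]
      obtain ⟨i', rfl⟩ := σ.surjective i
      rw [Equiv.symm_apply_apply]
      obtain ⟨i'', rfl⟩ := e.surjective i'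
      rw [Equiv.symm_apply_apply]
      rcases i'' with a | a
      · rw [Equiv.sumCongr_apply, Sum.map_inl, he, he]
        exact congrFun hτ a
      · rw [Equiv.sumCongr_apply, Sum.map_inr, Equiv.refl_apply]
        exact (h2 _ (hinr a)).symm
  · intro p hp p' hp' h
    obtain ⟨-, h2⟩ := hB p hp
    obtain ⟨-, h2'⟩ := hB p' hp'
    obtain ⟨g1, g⟩ := Prod.mk.inj h
    obtain ⟨g2, g3⟩ := Prod.mk.inj g
    have e1 : p.1 = p'.1 := by
      funext i
      obtain ⟨a, rfl⟩ := e.surjective i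
      rcases a with a | a
      · rw [he]; exact congrFun g2 a
      · exact congrFun g1 a
    have e2 : p.2 = p'.2 := by
      funext i
      obtain ⟨i', rfl⟩ := σ.surjective i
      obtain ⟨a, rfl⟩ := e.surjective i'
      rcases a with a | a
      · rw [he]; exact congrFun g3 a
      · rw [← h2 _ (hinr a), ← h2' _ (hinr a), e1]
    exact Prod.ext e1 e2

/-- non-diagonal solutions with at most `r` differing pairs. -/
theorem few_differ (s k r : ℕ) (hr : r ≤ k ∨ 2 * r * (r - 1) + 2 * k + 5 < 3 * k ^ 2) :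
    ∃ C : ℝ, 0 ≤ C ∧ ∀ N : ℕ, 1 ≤ N → ∀ B : Finset ((Fin s → ℕ) × (Fin s → ℕ)),
      (∀ p ∈ B, p ∈ VN s k N ∧ ∃ σ : Equiv.Perm (Fin s), (univ.filter fun i => p.1 i ≠ p.2 (σ i)).card ≤ r) →
      (B.card : ℝ) ≤ C * (N : ℝ) ^ (s - 1) := by
  classical
  obtain ⟨C, hC0, hC⟩ := nd_bound k r hr
  refine ⟨(∑ t ∈ range (r + 1), ((Fintype.card (Fin t → Fin s) * Fintype.card (Equiv.Perm (Fin s)) : ℕ) : ℝ)) * C,
    by positivity, ?_⟩
  intro N hN B hB
  have hNR : (1 : ℝ) ≤ N := by exact_mod_cast hN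
  obtain ⟨Bp, hBp⟩ : ∃ Bp : (t : ℕ) → (Fin t → Fin s) → Equiv.Perm (Fin s) → Finset ((Fin s → ℕ) × (Fin s → ℕ)),
      ∀ t ι σ, Bp t ι σ = B.filter (fun p => Function.Injective ι ∧ 1 ≤ t ∧
        ∀ i, i ∉ Set.range ι → p.1 i = p.2 (σ i)) := ⟨_, fun _ _ _ => rfl⟩
  have hone : ∀ t ∈ range (r + 1), ∀ ι : Fin t → Fin s, ∀ σ, ((Bp t ι σ).card : ℝ) ≤ C * (N : ℝ) ^ (s - 1) := by
    intro t ht ι σ
    rw [Finset.mem_range] at ht
    by_cases hι : Function.Injective ι ∧ 1 ≤ t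
    · have hts : t ≤ s := by
        have := Fintype.card_le_of_injective ι hι.1
        rwa [Fintype.card_fin, Fintype.card_fin] at this
      have h1 := agree_count (k := k) (N := N) ι hι.1 σ (Bp t ι σ) (by
        intro p hp
        rw [hBp, Finset.mem_filter] at hp
        exact ⟨(hB p hp.1).1, hp.2.2.2⟩)
      have h2 := hC t (by omega) N hN
      calc ((Bp t ι σ).card : ℝ) ≤ ((N ^ (s - t) * (VN t k N).card : ℕ) : ℝ) := Nat.cast_le.2 h1
        _ = (N : ℝ) ^ (s - t) * ((VN t k N).card : ℝ) := by push_cast; ring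
        _ ≤ (N : ℝ) ^ (s - t) * (C * (N : ℝ) ^ (t - 1)) := mul_le_mul_of_nonneg_left h2 (by positivity)
        _ = C * ((N : ℝ) ^ (s - t) * (N : ℝ) ^ (t - 1)) := by ring
        _ = C * (N : ℝ) ^ (s - 1) := by
            rw [← pow_add]
            congr 2
            omega
    · have : Bp t ι σ = ∅ := by
        rw [Finset.eq_empty_iff_forall_notMem]
        intro p hp
        rw [hBp, Finset.mem_filter] at hp
        exact hι ⟨hp.2.1, hp.2.2.1⟩
      rw [this, Finset.card_empty, Nat.cast_zero]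
      positivity
  have hcov : B ⊆ (range (r + 1)).biUnion fun t => (univ : Finset (Fin t → Fin s)).biUnion fun ι =>
      (univ : Finset (Equiv.Perm (Fin s))).biUnion fun σ => Bp t ι σ := by
    intro p hp
    obtain ⟨h1, σ, h2⟩ := hB p hp
    obtain ⟨T, hT⟩ : ∃ T : Finset (Fin s), T = univ.filter fun i => p.1 i ≠ p.2 (σ i) := ⟨_, rfl⟩
    rw [← hT] at h2
    have hT1 : 1 ≤ T.card := by
      rw [Nat.one_le_iff_ne_zero]
      intro h0
      rw [Finset.card_eq_zero] at h0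
      rw [mem_VN] at h1
      apply h1.2
      refine ⟨σ.symm, ?_⟩
      funext i
      rw [Function.comp_apply]
      by_contra hne
      have : σ.symm i ∈ T := by
        rw [hT, Finset.mem_filter]
        refine ⟨Finset.mem_univ _, ?_⟩
        rw [Equiv.apply_symm_apply]
        exact fun h => hne h.symm
      rw [h0] at this
      exact Finset.notMem_empty _ this
    rw [Finset.mem_biUnion]
    refine ⟨T.card, Finset.mem_range.2 (by omega), ?_⟩
    rw [Finset.mem_biUnion]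
    refine ⟨fun i => T.orderEmbOfFin rfl i, Finset.mem_univ _, ?_⟩
    rw [Finset.mem_biUnion]
    refine ⟨σ, Finset.mem_univ _, ?_⟩
    rw [hBp, Finset.mem_filter]
    refine ⟨hp, (T.orderEmbOfFin rfl).injective, hT1, ?_⟩
    intro i hi
    by_contra hne
    apply hi
    have : i ∈ T := by rw [hT, Finset.mem_filter]; exact ⟨Finset.mem_univ _, hne⟩
    have h3 := Finset.range_orderEmbOfFin T rfl
    have h4 : i ∈ (T : Set (Fin s)) := this
    rw [← h3] at h4
    exact h4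
  calc (B.card : ℝ) ≤ ((∑ t ∈ range (r + 1), ∑ ι : Fin t → Fin s, ∑ σ : Equiv.Perm (Fin s), (Bp t ι σ).card : ℕ) : ℝ) := by
        refine Nat.cast_le.2 ((Finset.card_le_card hcov).trans ?_)
        refine Finset.card_biUnion_le.trans (Finset.sum_le_sum fun t _ => ?_)
        refine Finset.card_biUnion_le.trans (Finset.sum_le_sum fun ι _ => ?_)
        exact Finset.card_biUnion_le
    _ = ∑ t ∈ range (r + 1), ∑ ι : Fin t → Fin s, ∑ σ : Equiv.Perm (Fin s), ((Bp t ι σ).card : ℝ) := by push_cast; rfl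
    _ ≤ ∑ t ∈ range (r + 1), ∑ _ι : Fin t → Fin s, ∑ _σ : Equiv.Perm (Fin s), C * (N : ℝ) ^ (s - 1) :=
        Finset.sum_le_sum fun t ht => Finset.sum_le_sum fun ι _ => Finset.sum_le_sum fun σ _ => hone t ht ι σ
    _ = _ := by
        simp only [Finset.sum_const, Finset.card_univ, nsmul_eq_mul]
        rw [mul_assoc, Finset.sum_mul]
        refine Finset.sum_congr rfl fun t _ => ?_
        push_cast
        ring

/-- **sparse relations.** -/
theorem part3 (k s r : ℕ) (hk : 2 ≤ k) (hs1 : 1 ≤ s) (hs : 2 * s ≤ k ^ 2)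
    (hr : r ≤ k ∨ 2 * r * (r - 1) + 2 * k + 5 < 3 * k ^ 2) (δ : ℝ) (hδ : 0 < δ) :
    ∃ c : ℝ, 0 < c ∧ ∃ C : ℝ, ∀ N : ℕ, 1 ≤ N → ∀ ρ : Finset (ℕ × ℕ), (ρ.card : ℝ) ≤ (N : ℝ) ^ (2 - δ) →
      ∀ W : Finset ((Fin s → ℕ) × (Fin s → ℕ)), (∀ p, p ∈ W ↔ p ∈ sol s k (Icc 1 N) ∧
        ∃ σ : Equiv.Perm (Fin s), (univ.filter fun i => p.1 i ≠ p.2 (σ i) ∧ (p.1 i, p.2 (σ i)) ∉ ρ).card ≤ r) →
      |(W.card : ℝ) - (s.factorial : ℝ) * (N : ℝ) ^ s| ≤ C * (N : ℝ) ^ ((s : ℝ) - c) := by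
  classical
  obtain ⟨q, hq⟩ : ∃ q, q = k / 2 := ⟨_, rfl⟩
  have hq1 : 1 ≤ q := by omega
  have hqk : 2 * q * 1 ≤ k := by omega
  have hqs : 4 * q * (s - 1) ≤ (2 * q - 1) * (k * (k + 1)) := by
    obtain ⟨q', hq'⟩ : ∃ q', q = q' + 1 := ⟨q - 1, by omega⟩
    obtain ⟨s', hs'⟩ : ∃ s', s = s' + 1 := ⟨s - 1, by omega⟩
    have e1 : 2 * q - 1 = 2 * q' + 1 := by omega
    have e2 : s - 1 = s' := by omega
    rw [e1, e2]
    rcases Nat.even_or_odd k with ⟨a, ha⟩ | ⟨a, ha⟩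
    · have : q' + 1 = a := by omega
      subst this
      rw [hq'] at *
      subst hs'
      rw [ha] at hs ⊢
      nlinarith
    · have : q' + 1 = a := by omega
      subst this
      rw [hq'] at *
      subst hs'
      rw [ha] at hs ⊢
      have h9 : 2 * (s' + 1) ≤ 4 * (q' + 1) ^ 2 + 4 * (q' + 1) + 1 := by
        refine hs.trans (le_of_eq ?_)
        ring
      have h10 : s' + 1 ≤ 2 * (q' + 1) ^ 2 + 2 * (q' + 1) := by omega
      nlinarith [Nat.mul_le_mul_left (q' + 1) h10]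
  obtain ⟨C1, hC1, h1⟩ := part1 k 1 q s le_rfl hq1 hqk hqs (δ / 4) (by linarith)
  obtain ⟨C2, hC2, h2⟩ := few_differ s k r hr
  obtain ⟨C3, hC3, h3⟩ := Pool.Agent.W346.PV.Diag.main s hs1
  refine ⟨min (δ / 4) 1, by positivity, s ^ 2 * C1 + C2 + C3, ?_⟩
  intro N hN ρ hρ W hW
  have hNR : (1 : ℝ) ≤ N := by exact_mod_cast hN
  have hN0 : (0 : ℝ) < N := by linarith
  obtain ⟨DG, hDG⟩ : ∃ DG : Finset ((Fin s → ℕ) × (Fin s → ℕ)), DG = ((Fintype.piFinset fun _ : Fin s => Finset.Icc 1 N) ×ˢ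
      (Fintype.piFinset fun _ : Fin s => Finset.Icc 1 N)).filter
    (fun p : (Fin s → ℕ) × (Fin s → ℕ) => ∃ σ : Equiv.Perm (Fin s), p.2 = p.1 ∘ σ) := ⟨_, rfl⟩
  have h3' := h3 N hN
  have hDGW : DG ⊆ W := by
    intro p hp
    rw [hDG, Finset.mem_filter, Finset.mem_product, Fintype.mem_piFinset, Fintype.mem_piFinset] at hp
    obtain ⟨h5, σ, h6⟩ := hp
    rw [hW, mem_sol]
    refine ⟨⟨h5, fun j => ?_⟩, σ.symm, ?_⟩
    · rw [h6]
      exact (Equiv.sum_comp σ (fun i => p.1 i ^ (j.val + 1))).symm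
    · have : (univ.filter fun i => p.1 i ≠ p.2 (σ.symm i) ∧ (p.1 i, p.2 (σ.symm i)) ∉ ρ) = ∅ := by
        rw [Finset.filter_eq_empty_iff]
        intro i _ h7
        apply h7.1
        rw [h6, Function.comp_apply, Equiv.apply_symm_apply]
      rw [this, Finset.card_empty]
      exact Nat.zero_le _
  -- related unequal pairs
  obtain ⟨E, hE⟩ : ∃ E : Finset ((Fin 1 → ℕ) × (Fin 1 → ℕ)), E = (ρ.filter fun a => a.1 ≠ a.2).image
      (fun a => ((fun _ => a.1), (fun _ => a.2))) := ⟨_, rfl⟩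
  have hEc : (E.card : ℝ) ≤ (N : ℝ) ^ (2 - δ) := by
    refine le_trans ?_ hρ
    rw [hE]
    exact_mod_cast Finset.card_image_le.trans (Finset.card_filter_le _ _)
  have hEd : ∀ e ∈ E, ∀ i j, e.1 i ≠ e.2 j := by
    intro e he i j
    rw [hE, Finset.mem_image] at he
    obtain ⟨a, ha, rfl⟩ := he
    exact (Finset.mem_filter.1 ha).2
  obtain ⟨A, hA⟩ : ∃ A : Fin s → Fin s → Finset ((Fin s → ℕ) × (Fin s → ℕ)), ∀ i j, A i j =
      (sol s k (Icc 1 N)).filter (fun p => (p.1 ∘ (fun _ : Fin 1 => i), p.2 ∘ (fun _ : Fin 1 => j)) ∈ E) :=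
    ⟨_, fun _ _ => rfl⟩
  have hAc : ∀ i j, ((A i j).card : ℝ) ≤ C1 * (N : ℝ) ^ ((s : ℝ) - min (δ / 4) 1) := by
    intro i j
    rw [hA]
    have h5 := h1 N hN (Icc 1 N) (Finset.Subset.refl _) (fun _ => i) (fun _ => j) (Function.injective_of_subsingleton _)
      (Function.injective_of_subsingleton _) E hEd
    refine h5.trans ?_
    rw [Nat.card_Icc, Nat.add_sub_cancel]
    have h6 : Real.sqrt (E.card : ℝ) ≤ (N : ℝ) ^ ((2 - δ) / 2) := by
      rw [Real.sqrt_eq_rpow]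
      calc ((E.card : ℝ)) ^ ((1 : ℝ) / 2) ≤ ((N : ℝ) ^ (2 - δ)) ^ ((1 : ℝ) / 2) :=
            Real.rpow_le_rpow (Nat.cast_nonneg _) hEc (by norm_num)
        _ = _ := by
            rw [← Real.rpow_mul hN0.le]
            congr 1
            ring
    calc C1 * (N : ℝ) ^ (δ / 4) * (N : ℝ) ^ (s - 1) * Real.sqrt (E.card : ℝ)
        ≤ C1 * (N : ℝ) ^ (δ / 4) * (N : ℝ) ^ (s - 1) * (N : ℝ) ^ ((2 - δ) / 2) := by gcongr
      _ = C1 * (N : ℝ) ^ ((s : ℝ) - δ / 4) := by
          rw [← Real.rpow_natCast, mul_assoc, mul_assoc, ← Real.rpow_add hN0, ← Real.rpow_add hN0, Nat.cast_sub hs1]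
          congr 2
          push_cast
          ring
      _ ≤ _ := by
          refine mul_le_mul_of_nonneg_left (Real.rpow_le_rpow_of_exponent_le hNR ?_) hC1.le
          linarith [min_le_left (δ / 4) 1]
  -- the rest
  obtain ⟨B, hB⟩ : ∃ B : Finset ((Fin s → ℕ) × (Fin s → ℕ)), B = (VN s k N).filter fun p =>
      ∃ σ : Equiv.Perm (Fin s), (univ.filter fun i => p.1 i ≠ p.2 (σ i)).card ≤ r := ⟨_, rfl⟩
  have hBc := h2 N hN B (by
    intro p hp
    rw [hB, Finset.mem_filter] at hp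
    exact hp)
  have hcov : W ⊆ DG ∪ (B ∪ (univ : Finset (Fin s)).biUnion fun i => (univ : Finset (Fin s)).biUnion fun j => A i j) := by
    intro p hp
    rw [hW] at hp
    obtain ⟨h5, σ, h6⟩ := hp
    rw [Finset.mem_union, Finset.mem_union]
    by_cases hd : ∃ σ : Equiv.Perm (Fin s), p.2 = p.1 ∘ σ
    · left
      rw [hDG, Finset.mem_filter, Finset.mem_product, Fintype.mem_piFinset, Fintype.mem_piFinset]
      exact ⟨(mem_sol.1 h5).1, hd⟩
    · right
      by_cases hrel : ∃ i j, p.1 i ≠ p.2 j ∧ (p.1 i, p.2 j) ∈ ρ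
      · right
        obtain ⟨i, j, h7, h8⟩ := hrel
        rw [Finset.mem_biUnion]
        refine ⟨i, Finset.mem_univ i, ?_⟩
        rw [Finset.mem_biUnion]
        refine ⟨j, Finset.mem_univ j, ?_⟩
        rw [hA, Finset.mem_filter]
        refine ⟨h5, ?_⟩
        rw [hE, Finset.mem_image]
        exact ⟨(p.1 i, p.2 j), Finset.mem_filter.2 ⟨h8, h7⟩, rfl⟩
      · left
        rw [hB, Finset.mem_filter, mem_VN]
        refine ⟨⟨h5, hd⟩, σ, ?_⟩
        refine le_trans (Finset.card_le_card ?_) h6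
        intro i hi
        rw [Finset.mem_filter] at hi ⊢
        refine ⟨hi.1, hi.2, fun h => hrel ⟨i, σ i, hi.2, h⟩⟩
  have hWc : (W.card : ℝ) ≤ DG.card + (B.card + ∑ i : Fin s, ∑ j : Fin s, ((A i j).card : ℝ)) := by
    have h5 : W.card ≤ DG.card + (B.card + ∑ i : Fin s, ∑ j : Fin s, (A i j).card) := by
      refine (Finset.card_le_card hcov).trans ((Finset.card_union_le _ _).trans ?_)
      refine Nat.add_le_add_left ((Finset.card_union_le _ _).trans (Nat.add_le_add_left ?_ _)) _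
      refine Finset.card_biUnion_le.trans (Finset.sum_le_sum fun i _ => ?_)
      exact Finset.card_biUnion_le
    exact_mod_cast h5
  have hWl : (DG.card : ℝ) ≤ W.card := by exact_mod_cast Finset.card_le_card hDGW
  have hsumA : ∑ i : Fin s, ∑ j : Fin s, ((A i j).card : ℝ) ≤ s ^ 2 * C1 * (N : ℝ) ^ ((s : ℝ) - min (δ / 4) 1) := by
    calc ∑ i : Fin s, ∑ j : Fin s, ((A i j).card : ℝ)
        ≤ ∑ _i : Fin s, ∑ _j : Fin s, C1 * (N : ℝ) ^ ((s : ℝ) - min (δ / 4) 1) :=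
          Finset.sum_le_sum fun i _ => Finset.sum_le_sum fun j _ => hAc i j
      _ = _ := by
          simp only [Finset.sum_const, Finset.card_univ, Fintype.card_fin, nsmul_eq_mul]
          ring
  have hpow : (N : ℝ) ^ (s - 1) ≤ (N : ℝ) ^ ((s : ℝ) - min (δ / 4) 1) := by
    rw [← Real.rpow_natCast]
    refine Real.rpow_le_rpow_of_exponent_le hNR ?_
    rw [Nat.cast_sub hs1]
    push_cast
    linarith [min_le_right (δ / 4) 1]
  have h7 : |(DG.card : ℝ) - (s.factorial : ℝ) * (N : ℝ) ^ s| ≤ C3 * (N : ℝ) ^ (s - 1) := by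
    rw [hDG]
    convert h3' using 1
  rw [abs_le] at h7 ⊢
  have g1 : C3 * (N : ℝ) ^ (s - 1) ≤ C3 * (N : ℝ) ^ ((s : ℝ) - min (δ / 4) 1) := mul_le_mul_of_nonneg_left hpow hC3.le
  have g2 : C2 * (N : ℝ) ^ (s - 1) ≤ C2 * (N : ℝ) ^ ((s : ℝ) - min (δ / 4) 1) := mul_le_mul_of_nonneg_left hpow hC2
  have g3 : (0 : ℝ) ≤ (s ^ 2 * C1 + C2) * (N : ℝ) ^ ((s : ℝ) - min (δ / 4) 1) := by positivity
  constructor
  · nlinarith [h7.1, hWl]
  · nlinarith [h7.2, hWc, hsumA, hBc]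

end Pool.Agent.L5helper96.VS
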