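import Mathlib

/-! Sums of products of functions in which every variable occurs in exactly two factors. -/

set_option autoImplicit false

namespace Pool.Agent.L5helper96.VS

open Finset

section elim

variable {P V I : Type} [Fintype P] [DecidableEq P] [Fintype V] [DecidableEq V] [Fintype I] [DecidableEq I]

/-- assignments that agree with `z` off `T`. -/
def AT (T : Finset P) (z : P → V) : Finset (P → V) := univ.filter (fun w => ∀ p, p ∉ T → w p = z p)

lemma mem_AT {T : Finset P} {z w : P → V} : w ∈ AT T z ↔ ∀ p, p ∉ T → w p = z p := by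
  simp [AT]

/-- fixing one coordinate. -/
lemma sum_AT_insert (T : Finset P) (p : P) (hp : p ∉ T) (z : P → V) (g : (P → V) → ℝ) :
    ∑ w ∈ AT (insert p T) z, g w = ∑ v : V, ∑ w ∈ AT T (Function.update z p v), g w := by
  classical
  rw [← Finset.sum_fiberwise_of_maps_to (s := AT (insert p T) z) (t := (univ : Finset V)) (g := fun w => w p)
    (fun w _ => Finset.mem_univ _)]
  refine Finset.sum_congr rfl fun v _ => ?_
  refine Finset.sum_congr ?_ fun w _ => rfl
  ext w
  rw [Finset.mem_filter, mem_AT, mem_AT]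
  constructor
  · rintro ⟨h1, h2⟩ p' hp'
    rcases eq_or_ne p' p with rfl | hne
    · rw [Function.update_self, h2]
    · rw [Function.update_of_ne hne]
      exact h1 p' (by rw [Finset.mem_insert]; push Not; exact ⟨hne, hp'⟩)
  · intro h
    refine ⟨fun p' hp' => ?_, ?_⟩
    · rw [Finset.mem_insert] at hp'
      push Not at hp'
      rw [h p' hp'.2, Function.update_of_ne hp'.1]
    · have := h p hp
      rwa [Function.update_self] at this

/-- changing a coordinate on which the function does not depend. -/
lemma sum_AT_update (T S : Finset P) (p : P) (hpS : p ∉ S) (hTS : T ⊆ S) (z : P → V) (v : V)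
    (g : (P → V) → ℝ) (hg : ∀ w w', (∀ p' ∈ S, w p' = w' p') → g w = g w') :
    ∑ w ∈ AT T (Function.update z p v), g w = ∑ w ∈ AT T z, g w := by
  classical
  have hpT : p ∉ T := fun h => hpS (hTS h)
  refine Finset.sum_nbij' (fun w => Function.update w p (z p)) (fun w => Function.update w p v) ?_ ?_ ?_ ?_ ?_
  · intro w hw
    rw [mem_AT] at hw ⊢
    intro p' hp'
    rcases eq_or_ne p' p with rfl | hne
    · rw [Function.update_self]
    · rw [Function.update_of_ne hne, hw p' hp', Function.update_of_ne hne]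
  · intro w hw
    rw [mem_AT] at hw ⊢
    intro p' hp'
    rcases eq_or_ne p' p with rfl | hne
    · rw [Function.update_self, Function.update_self]
    · rw [Function.update_of_ne hne, hw p' hp', Function.update_of_ne hne]
  · intro w hw
    rw [mem_AT] at hw
    have := hw p hpT
    rw [Function.update_self] at this
    rw [Function.update_idem, ← this, Function.update_eq_self]
  · intro w hw
    rw [mem_AT] at hw
    have := hw p hpT
    rw [Function.update_idem, ← this, Function.update_eq_self]
  · intro w hw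
    refine hg _ _ fun p' hp' => ?_
    rw [Function.update_of_ne (by rintro rfl; exact hpS hp')]

lemma cs (a b : V → ℝ) (ha : ∀ v, 0 ≤ a v) (hb : ∀ v, 0 ≤ b v) :
    ∑ v, Real.sqrt (a v) * Real.sqrt (b v) ≤ Real.sqrt (∑ v, a v) * Real.sqrt (∑ v, b v) := by
  have h := Real.sum_sqrt_mul_sqrt_le (Finset.univ : Finset V) (f := a) (g := b) ha hb
  exact h

/-- **every variable in exactly two factors.** -/
theorem elim (f : I → (P → V) → ℝ) (S : I → Finset P) (hf0 : ∀ i w, 0 ≤ f i w)
    (hdep : ∀ i w w', (∀ p ∈ S i, w p = w' p) → f i w = f i w')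
    (T : Finset P) (hT : ∀ p ∈ T, ∃ a b, a ≠ b ∧ ∀ i, p ∈ S i ↔ i = a ∨ i = b) (z : P → V) :
    ∑ w ∈ AT T z, ∏ i, f i w ≤ ∏ i, Real.sqrt (∑ w ∈ AT (T ∩ S i) z, f i w ^ 2) := by
  classical
  induction T using Finset.induction_on generalizing z with
  | empty =>
    have h0 : AT (∅ : Finset P) z = {z} := by
      ext w
      rw [mem_AT, Finset.mem_singleton]
      constructor
      · intro h; funext p; exact h p (Finset.notMem_empty p)
      · rintro rfl; exact fun _ _ => rfl
    rw [h0, Finset.sum_singleton]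
    refine (Finset.prod_congr rfl fun i _ => ?_).le
    rw [Finset.empty_inter, h0, Finset.sum_singleton, Real.sqrt_sq (hf0 i z)]
  | insert p T hp ih =>
    obtain ⟨a, b, hab, hS⟩ := hT p (Finset.mem_insert_self p T)
    have ih' := ih (fun p' hp' => hT p' (Finset.mem_insert_of_mem hp'))
    rw [sum_AT_insert T p hp z]
    -- the factors
    obtain ⟨X, hX⟩ : ∃ X : I → V → ℝ, ∀ i v, X i v = ∑ w ∈ AT (T ∩ S i) (Function.update z p v), f i w ^ 2 :=
      ⟨fun i v => ∑ w ∈ AT (T ∩ S i) (Function.update z p v), f i w ^ 2, fun _ _ => rfl⟩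
    have hX0 : ∀ i v, 0 ≤ X i v := by
      intro i v
      rw [hX]
      exact Finset.sum_nonneg fun w _ => sq_nonneg _
    have hXc : ∀ i, i ≠ a → i ≠ b → ∀ v, X i v = ∑ w ∈ AT (insert p T ∩ S i) z, f i w ^ 2 := by
      intro i hia hib v
      have hpi : p ∉ S i := by
        rw [hS]; push Not; exact ⟨hia, hib⟩
      rw [hX, Finset.insert_inter_of_notMem hpi]
      refine sum_AT_update _ (S i) p hpi Finset.inter_subset_right z v _ ?_
      intro w w' hw
      rw [hdep i w w' hw]
    have hXs : ∀ i, i = a ∨ i = b → ∑ v, X i v = ∑ w ∈ AT (insert p T ∩ S i) z, f i w ^ 2 := by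
      intro i hi
      have hpi : p ∈ S i := (hS i).2 hi
      rw [Finset.insert_inter_of_mem hpi, sum_AT_insert (T ∩ S i) p (fun h => hp (Finset.mem_of_mem_inter_left h)) z]
      exact Finset.sum_congr rfl fun v _ => hX i v
    have h1 : ∑ v : V, ∑ w ∈ AT T (Function.update z p v), ∏ i, f i w ≤ ∑ v : V, ∏ i, Real.sqrt (X i v) := by
      refine Finset.sum_le_sum fun v _ => ?_
      refine (ih' (Function.update z p v)).trans_eq ?_
      refine Finset.prod_congr rfl fun i _ => ?_
      rw [hX]
    refine h1.trans ?_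
    have hbm : b ∈ Finset.univ.erase a := Finset.mem_erase.2 ⟨hab.symm, Finset.mem_univ b⟩
    have hsplit : ∀ g : I → ℝ, ∏ i, g i = g a * (g b * ∏ i ∈ (Finset.univ.erase a).erase b, g i) := by
      intro g
      rw [← Finset.mul_prod_erase Finset.univ g (Finset.mem_univ a), ← Finset.mul_prod_erase _ g hbm]
    rw [hsplit (fun i => Real.sqrt (∑ w ∈ AT (insert p T ∩ S i) z, f i w ^ 2))]
    have h2 : ∀ v, ∏ i, Real.sqrt (X i v) = (Real.sqrt (X a v) * Real.sqrt (X b v)) *
        ∏ i ∈ (Finset.univ.erase a).erase b, Real.sqrt (∑ w ∈ AT (insert p T ∩ S i) z, f i w ^ 2) := by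
      intro v
      rw [hsplit (fun i => Real.sqrt (X i v)), mul_assoc]
      congr 2
      refine Finset.prod_congr rfl fun i hi => ?_
      rw [Finset.mem_erase, Finset.mem_erase] at hi
      rw [hXc i hi.2.1 hi.1 v]
    rw [Finset.sum_congr rfl fun v _ => h2 v, ← Finset.sum_mul, ← mul_assoc, ← hXs a (Or.inl rfl), ← hXs b (Or.inr rfl)]
    exact mul_le_mul_of_nonneg_right (cs (X a) (X b) (hX0 a) (hX0 b))
      (Finset.prod_nonneg fun i _ => Real.sqrt_nonneg _)

end elim

section net

variable {H J V : Type} [Fintype H] [DecidableEq H] [Fintype J] [DecidableEq J] [Fintype V] [DecidableEq V]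

/-- network counting: each `z h ∈ E h` has a left part and a right part; left slots are matched with right slots of
other members. -/
theorem net (E : H → Finset ((J → V) × (J → V))) (π : (H × J) ≃ (H × J)) (hπ : ∀ p, (π p).1 ≠ p.1) :
    (((Fintype.piFinset E).filter (fun z => ∀ p : H × J, (z p.1).1 p.2 = (z (π p).1).2 (π p).2)).card : ℝ) ≤
      ∏ h, Real.sqrt ((E h).card : ℝ) := by
  classical
  rcases isEmpty_or_nonempty (H × J → V) with hemp | ⟨⟨z0⟩⟩
  · have : ((Fintype.piFinset E).filter (fun z => ∀ p : H × J, (z p.1).1 p.2 = (z (π p).1).2 (π p).2)) = ∅ := by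
      rw [Finset.eq_empty_iff_forall_notMem]
      intro z _
      exact hemp.elim (fun p => (z p.1).1 p.2)
    rw [this, Finset.card_empty, Nat.cast_zero]
    exact Finset.prod_nonneg fun h _ => Real.sqrt_nonneg _
  obtain ⟨f, hf⟩ : ∃ f : H → (H × J → V) → ℝ, ∀ h w, f h w =
      if ((fun j => w (h, j)), (fun j => w (π.symm (h, j)))) ∈ E h then 1 else 0 := ⟨_, fun _ _ => rfl⟩
  obtain ⟨S, hS⟩ : ∃ S : H → Finset (H × J), ∀ h p, p ∈ S h ↔ h = p.1 ∨ h = (π p).1 :=
    ⟨fun h => Finset.univ.filter (fun p => h = p.1 ∨ h = (π p).1), fun h p => by simp⟩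
  have hmain := elim f S (fun h w => by rw [hf]; split_ifs <;> norm_num) (by
      intro h w w' hw
      rw [hf, hf]
      have e1 : (fun j => w (h, j)) = fun j => w' (h, j) := by
        funext j; exact hw _ ((hS _ _).2 (Or.inl rfl))
      have e2 : (fun j => w (π.symm (h, j))) = fun j => w' (π.symm (h, j)) := by
        funext j; exact hw _ ((hS _ _).2 (Or.inr (by rw [Equiv.apply_symm_apply])))
      rw [e1, e2]) Finset.univ (fun p _ => ⟨p.1, (π p).1, (hπ p).symm, fun h => hS h p⟩) z0
  have hL : (((Fintype.piFinset E).filter (fun z => ∀ p : H × J, (z p.1).1 p.2 = (z (π p).1).2 (π p).2)).card : ℝ) ≤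
      ∑ w ∈ AT Finset.univ z0, ∏ h, f h w := by
    have h1 : ∀ w, ∏ h, f h w =
        if (∀ h, ((fun j => w (h, j)), (fun j => w (π.symm (h, j)))) ∈ E h) then 1 else 0 := by
      intro w
      split_ifs with hc
      · exact Finset.prod_eq_one fun h _ => by rw [hf, if_pos (hc h)]
      · push Not at hc
        obtain ⟨h, hh⟩ := hc
        exact Finset.prod_eq_zero (Finset.mem_univ h) (by rw [hf, if_neg hh])
    rw [Finset.sum_congr rfl fun w _ => h1 w, ← Finset.sum_filter, Finset.sum_const, nsmul_eq_mul, mul_one]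
    refine Nat.cast_le.2 (Finset.card_le_card_of_injOn (fun z p => (z p.1).1 p.2) ?_ ?_)
    · intro z hz
      rw [Finset.mem_coe, Finset.mem_filter, Fintype.mem_piFinset] at hz
      rw [Finset.mem_coe, Finset.mem_filter]
      refine ⟨mem_AT.2 fun p hp => absurd (Finset.mem_univ p) hp, fun h => ?_⟩
      have e1 : (fun j => (z (h, j).1).1 (h, j).2) = (z h).1 := rfl
      have e2 : (fun j => (z (π.symm (h, j)).1).1 (π.symm (h, j)).2) = (z h).2 := by
        funext j
        rw [hz.2 (π.symm (h, j)), Equiv.apply_symm_apply]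
      rw [e1, e2]
      exact hz.1 h
    · intro z hz z' hz' he
      rw [Finset.mem_coe, Finset.mem_filter] at hz hz'
      funext h
      have e1 : (z h).1 = (z' h).1 := by
        funext j; exact congrFun he (h, j)
      have e2 : (z h).2 = (z' h).2 := by
        funext j
        have a1 := hz.2 (π.symm (h, j))
        have a2 := hz'.2 (π.symm (h, j))
        rw [Equiv.apply_symm_apply] at a1 a2
        simp only at a1 a2
        rw [← a1, ← a2]
        exact congrFun he (π.symm (h, j))
      exact Prod.ext e1 e2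
  refine hL.trans (hmain.trans ?_)
  refine Finset.prod_le_prod (fun h _ => Real.sqrt_nonneg _) fun h _ => Real.sqrt_le_sqrt ?_
  rw [Finset.univ_inter]
  have h2 : ∀ w, f h w ^ 2 = if ((fun j => w (h, j)), (fun j => w (π.symm (h, j)))) ∈ E h then 1 else 0 := by
    intro w
    rw [hf]
    split_ifs <;> norm_num
  rw [Finset.sum_congr rfl fun w _ => h2 w, ← Finset.sum_filter, Finset.sum_const, nsmul_eq_mul, mul_one]
  refine Nat.cast_le.2 (Finset.card_le_card_of_injOn
    (fun w => ((fun j => w (h, j)), (fun j => w (π.symm (h, j))))) ?_ ?_)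
  · intro w hw
    rw [Finset.mem_coe, Finset.mem_filter] at hw
    exact hw.2
  · intro w hw w' hw' he
    rw [Finset.mem_coe, Finset.mem_filter, mem_AT] at hw hw'
    simp only [Prod.mk.injEq] at he
    funext p
    by_cases hp : p ∈ S h
    · rw [hS] at hp
      rcases hp with hp | hp
      · have := congrFun he.1 p.2
        simp only [hp] at this
        exact this
      · have := congrFun he.2 (π p).2
        simp only [hp] at this
        rw [Prod.mk.eta, Equiv.symm_apply_apply] at this
        exact this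
    · rw [hw.1 p hp, hw'.1 p hp]

end net

end Pool.Agent.L5helper96.VS
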